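import Pool.Agent.Helper77.TRI.Pl
import Pool.Agent.Helper67.TRI.GamLe
import Pool.Agent.Helper42.CV.AlgK
import Pool.Agent.Helper23.TRI.SumS
import Pool.Agent.Helper64.TRI.B2
import Pool.Agent.Helper41.TRI.Grow
import Pool.Agent.Helper31.CV.GrowLin
import Pool.Agent.Helper4.CV.Pencil

/-!
# CV, block K3: the theorem on curves, with a gap
-/

set_option autoImplicit false

namespace Pool.Agent.CV

open Module Pool.Agent.TRI
open Pool.Agent.SQ (RV lev)

universe u

section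

variable {k E : Type*} [Field k] [Field E] [Algebra k E]

private theorem prp_symm42k {ω ω' : E → ℝ} (h : Prp ω ω') : Prp ω' ω := by
  obtain ⟨c, hc, h⟩ := h
  refine ⟨c⁻¹, inv_pos.2 hc, fun x hx => ?_⟩
  rw [h x hx, ← mul_assoc, inv_mul_cancel₀ hc.ne', one_mul]

private theorem prp_trans42k {ω ω' ω'' : E → ℝ} (h : Prp ω ω') (h' : Prp ω' ω'') : Prp ω ω'' := by
  obtain ⟨c, hc, h⟩ := h
  obtain ⟨d, hd, h'⟩ := h'
  exact ⟨d * c, mul_pos hd hc, fun x hx => by rw [h' x hx, h x hx, mul_assoc]⟩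

private theorem prp_refl42k (ω : E → ℝ) : Prp ω ω := ⟨1, one_pos, fun x _ => by rw [one_mul]⟩

/-- the equivalence relation on the nontrivial valuations -/
private def rel42k {A : Type*} (ω : A → E → ℝ) : Setoid {α // ¬ Triv (ω α)} where
  r a b := Prp (ω a) (ω b)
  iseqv := ⟨fun _ => prp_refl42k _, fun h => prp_symm42k h, fun h h' => prp_trans42k h h'⟩

/-- representatives of the classes42k of the nontrivial valuations -/
private theorem classes42k {A : Type*} [Fintype A] (ω : A → E → ℝ) :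
    ∃ (R : Finset A) (ρ : A → A) (t : A → ℝ), (∀ s ∈ R, ¬ Triv (ω s)) ∧
      (∀ s ∈ R, ∀ s' ∈ R, s ≠ s' → ¬ Prp (ω s) (ω s')) ∧
      ∀ α, ¬ Triv (ω α) → ρ α ∈ R ∧ 0 < t α ∧ ∀ x, x ≠ 0 → ω α x = t α * ω (ρ α) x := by
  classical
  have key : ∀ α, ∃ (β : A) (t : ℝ), ∀ h : ¬ Triv (ω α), β = ((Quotient.out (Quotient.mk (rel42k ω) ⟨α, h⟩) : {α // ¬ Triv (ω α)}) : A) ∧
      0 < t ∧ ∀ x, x ≠ 0 → ω α x = t * ω β x := by
    intro α
    by_cases h : Triv (ω α)
    · exact ⟨α, 1, fun h' => absurd h h'⟩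
    · have h1 : Prp (ω (Quotient.out (Quotient.mk (rel42k ω) ⟨α, h⟩) : {α // ¬ Triv (ω α)}).1) (ω α) :=
        Quotient.exact (s := rel42k ω) (Quotient.out_eq (Quotient.mk (rel42k ω) ⟨α, h⟩))
      obtain ⟨t, ht, h2⟩ := h1
      exact ⟨_, t, fun _ => ⟨rfl, ht, h2⟩⟩
  choose ρ t hρ using key
  refine ⟨(Finset.univ.filter fun α => ¬ Triv (ω α)).image ρ, ρ, t, fun s hs => ?_, fun s hs s' hs' hne hp => ?_, fun α hα =>
    ⟨Finset.mem_image_of_mem _ (Finset.mem_filter.2 ⟨Finset.mem_univ _, hα⟩), (hρ α hα).2.1, (hρ α hα).2.2⟩⟩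
  · obtain ⟨α, hα, rfl⟩ := Finset.mem_image.1 hs
    have hα := (Finset.mem_filter.1 hα).2
    rw [(hρ α hα).1]
    exact (Quotient.out (Quotient.mk (rel42k ω) ⟨α, hα⟩) : {α // ¬ Triv (ω α)}).2
  · obtain ⟨α, hα, rfl⟩ := Finset.mem_image.1 hs
    obtain ⟨β, hβ, rfl⟩ := Finset.mem_image.1 hs'
    have hα := (Finset.mem_filter.1 hα).2
    have hβ := (Finset.mem_filter.1 hβ).2
    have h1 : Prp (ω (ρ α)) (ω α) := ⟨t α, (hρ α hα).2.1, (hρ α hα).2.2⟩
    have h2 : Prp (ω (ρ β)) (ω β) := ⟨t β, (hρ β hβ).2.1, (hρ β hβ).2.2⟩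
    have h3 : Prp (ω α) (ω β) := prp_trans42k (prp_trans42k (prp_symm42k h1) hp) h2
    apply hne
    rw [(hρ α hα).1, (hρ β hβ).1]
    have h4 : Quotient.mk (rel42k ω) ⟨α, hα⟩ = Quotient.mk (rel42k ω) ⟨β, hβ⟩ := Quotient.sound (s := rel42k ω) h3
    rw [h4]

private theorem dval_scale42k {ω ω' : E → ℝ} {γ : ℝ} {f : ℕ} (h : DVal k ω γ f) (h' : RV k ω') {t : ℝ} (ht : 0 < t)
    (hω : ∀ x, x ≠ 0 → ω' x = t * ω x) : DVal k ω' (t * γ) f where
  rv := h'
  γ0 := mul_pos ht h.γ0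
  f0 := h.f0
  dvd := fun x hx => by
    obtain ⟨n, hn⟩ := h.dvd x hx
    exact ⟨n, by rw [hω x hx, hn]; ring⟩
  ex := by
    obtain ⟨x, hx, h1⟩ := h.ex
    exact ⟨x, hx, by rw [hω x hx, h1]⟩
  res := by
    obtain ⟨u, hu⟩ := h.res
    refine ⟨u, fun c hc => ⟨(hu c hc).1, ?_⟩⟩
    rw [hω _ (hu c hc).1, (hu c hc).2, mul_zero]
  max := fun f' u hu => h.max f' u fun c hc => ⟨(hu c hc).1, by
    have h1 := (hu c hc).2
    rw [hω _ (hu c hc).1] at h1
    exact (mul_eq_zero.1 h1).resolve_left ht.ne'⟩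

private theorem rv_one42k {ω : E → ℝ} (h : RV k ω) : ω 1 = 0 := by
  have := h.alg 1 one_ne_zero
  rwa [map_one] at this

private theorem rv_inv42k {ω : E → ℝ} (h : RV k ω) {x : E} (hx : x ≠ 0) : ω x⁻¹ = - ω x := by
  have := h.mul x x⁻¹ hx (inv_ne_zero hx)
  rw [mul_inv_cancel₀ hx, rv_one42k h] at this
  linarith

private theorem rv_div42k {ω : E → ℝ} (h : RV k ω) {x y : E} (hx : x ≠ 0) (hy : y ≠ 0) : ω (x / y) = ω x - ω y := by
  rw [div_eq_mul_inv, h.mul _ _ hx (inv_ne_zero hy), rv_inv42k h hy]; ring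

private theorem rv_pow42k {ω : E → ℝ} (h : RV k ω) {x : E} (hx : x ≠ 0) (n : ℕ) : ω (x ^ n) = n * ω x := by
  induction n with
  | zero => simp [rv_one42k h]
  | succ n ih => rw [pow_succ, h.mul _ _ (pow_ne_zero _ hx) hx, ih]; push_cast; ring

private theorem rv_zpow42k {ω : E → ℝ} (h : RV k ω) {x : E} (hx : x ≠ 0) (n : ℤ) : ω (x ^ n) = n * ω x := by
  cases n with
  | ofNat n => simpa using rv_pow42k h hx n
  | negSucc n =>
    rw [zpow_negSucc, rv_inv42k h (pow_ne_zero _ hx), rv_pow42k h hx]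
    push_cast
    ring

private theorem rv_prod42k {ω : E → ℝ} (h : RV k ω) {q : ℕ} (L : Fin q → E) (hL : ∀ i, L i ≠ 0) (a : Fin q → ℤ) :
    ω (∏ i, L i ^ a i) = ∑ i, a i * ω (L i) := by
  classical
  have key : ∀ s : Finset (Fin q), ω (∏ i ∈ s, L i ^ a i) = ∑ i ∈ s, a i * ω (L i) := by
    intro s
    induction s using Finset.induction_on with
    | empty => simp [rv_one42k h]
    | insert j s hj ih =>
      rw [Finset.prod_insert hj, Finset.sum_insert hj,
        h.mul _ _ (zpow_ne_zero _ (hL j)) (Finset.prod_ne_zero_iff.2 fun i _ => zpow_ne_zero _ (hL i)), ih, rv_zpow42k h (hL j)]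
  exact key _

/-- the elements of value greater than `c` -/
private def levp42k {ω : E → ℝ} (h : RV k ω) (c : ℝ) : Submodule k E where
  carrier := {x | x = 0 ∨ c < ω x}
  zero_mem' := Or.inl rfl
  add_mem' := by
    intro x y hx hy
    rcases hx with rfl | hx
    · simpa using hy
    rcases hy with rfl | hy
    · rw [add_zero]; exact Or.inr hx
    by_cases hxy : x + y = 0
    · exact Or.inl hxy
    by_cases hx0 : x = 0
    · subst hx0; rw [zero_add]; exact Or.inr hy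
    by_cases hy0 : y = 0
    · subst hy0; rw [add_zero]; exact Or.inr hx
    exact Or.inr ((lt_min hx hy).trans_le (h.add x y hx0 hy0 hxy))
  smul_mem' := by
    intro c x hx
    rcases hx with rfl | hx
    · simp
    by_cases hc : c = 0
    · left; simp [hc]
    by_cases hx0 : x = 0
    · left; simp [hx0]
    right
    rw [h.smul c x hc hx0]
    exact hx

/-- an element of `V` of minimal value everywhere -/
private theorem exists_min42k [CharZero k] {A : Type*} [Fintype A] [Nonempty A] {V : Submodule k E} {ω : A → E → ℝ} {c : A → ℝ} {r : ℕ}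
    {h : ℝ} (hD : Dat V ω c r h) : ∃ l ∈ V, l ≠ 0 ∧ ∀ α, ω α l + c α = 0 := by
  classical
  have hinf : Infinite k := CharZero.infinite k
  obtain ⟨p, hp⟩ : ∃ p : A → Submodule k V, ∀ α, ∀ x : V, x ∈ p α ↔ ((x : E) = 0 ∨ - c α < ω α x) :=
    ⟨fun α => (levp42k (hD.rv α) (- c α)).comap V.subtype, fun α x => by rw [Submodule.mem_comap]; rfl⟩
  have hne : ⋃ i, (p i : Set V) ≠ Set.univ := by
    intro hu
    obtain ⟨α, hα⟩ := Subspace.exists_eq_top_of_iUnion_eq_univ hu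
    obtain ⟨x, hx, hx0, h1⟩ := hD.eq α
    have h2 : (⟨x, hx⟩ : V) ∈ p α := by rw [hα]; exact Submodule.mem_top
    rcases (hp α _).1 h2 with h3 | h3
    · exact hx0 h3
    · have h4 : - c α < ω α x := h3
      linarith
  obtain ⟨x, hx⟩ := (Set.ne_univ_iff_exists_notMem _).1 hne
  have h1 : ∀ α, ¬ ((x : E) = 0 ∨ - c α < ω α x) := fun α h2 => hx (Set.mem_iUnion.2 ⟨α, (hp α x).2 h2⟩)
  obtain ⟨α0⟩ := ‹Nonempty A›
  have hx0 : (x : E) ≠ 0 := fun h2 => h1 α0 (Or.inl h2)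
  refine ⟨x, x.2, hx0, fun α => le_antisymm ?_ (hD.ge α x x.2 hx0)⟩
  have h3 := h1 α
  push Not at h3
  linarith [h3.2]

/-- a linear lower bound -/
private theorem slope42k {V : Submodule k E} {T δ : ℕ} (h : ∀ n : ℕ, T * (n + 1) ≤ finrank k ↥(V ^ (δ + n))) : (T : ℝ) ∈ Gr V := by
  refine ⟨(T * δ : ℕ), fun m => ?_⟩
  have h1 : T * m ≤ finrank k ↥(V ^ m) + T * δ := by
    rcases le_total m δ with h2 | h2
    · exact le_add_left (Nat.mul_le_mul_left _ h2)
    · obtain ⟨n, rfl⟩ := Nat.exists_eq_add_of_le h2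
      have h3 := h n
      nlinarith [h3, Nat.zero_le T]
  exact_mod_cast h1

private theorem slope_le42k {V : Submodule k E} {T δ d C : ℕ} (h : ∀ n : ℕ, T * (n + 1) ≤ finrank k ↥(V ^ (δ + n)))
    (h' : ∀ m, finrank k ↥(V ^ m) ≤ d * m + C) : T ≤ d := by
  by_contra hlt
  push Not at hlt
  have h1 := (h (d * δ + C)).trans (h' _)
  have h2 : (d + 1) * (d * δ + C + 1) ≤ T * (d * δ + C + 1) := Nat.mul_le_mul_right _ hlt
  nlinarith [h1, h2]


/-- the `m` largest weights -/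
private theorem top42k {ι : Type*} (R : Finset ι) (m : ℕ) (y : ι → ℝ) (w : ι → ℕ) (h0 : ∀ s ∈ R, 0 ≤ y s) (h1 : ∀ s ∈ R, y s ≤ 1)
    (hs : ∑ s ∈ R, y s ≤ m) : ∃ P, P ⊆ R ∧ P.card ≤ m ∧ ∑ s ∈ R, y s * w s ≤ ∑ s ∈ P, (w s : ℝ) := by
  classical
  by_cases hR : R.card ≤ m
  · refine ⟨R, subset_rfl, hR, Finset.sum_le_sum fun s hs => ?_⟩
    have h2 : (0 : ℝ) ≤ w s := Nat.cast_nonneg _
    have h3 := mul_le_mul_of_nonneg_right (h1 s hs) h2
    linarith
  push Not at hR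
  obtain ⟨P₀, hP₀, hc₀⟩ := Finset.exists_subset_card_eq hR.le
  obtain ⟨P, hP, hmax⟩ := Finset.exists_max_image (R.powersetCard m) (fun P => ∑ s ∈ P, w s)
    ⟨P₀, Finset.mem_powersetCard.2 ⟨hP₀, hc₀⟩⟩
  obtain ⟨hPR, hPc⟩ := Finset.mem_powersetCard.1 hP
  refine ⟨P, hPR, hPc.le, ?_⟩
  have hex : ∀ s ∈ P, ∀ u ∈ R \ P, w u ≤ w s := by
    intro s hs u hu
    obtain ⟨huR, huP⟩ := Finset.mem_sdiff.1 hu
    have hu' : u ∉ P.erase s := fun h => huP (Finset.mem_of_mem_erase h)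
    have h2 := hmax (insert u (P.erase s)) (Finset.mem_powersetCard.2 ⟨fun v hv => by
      rcases Finset.mem_insert.1 hv with rfl | hv
      · exact huR
      · exact hPR (Finset.mem_of_mem_erase hv), by
      rw [Finset.card_insert_of_notMem hu', Finset.card_erase_of_mem hs, hPc]
      have : 0 < P.card := Finset.card_pos.2 ⟨s, hs⟩
      omega⟩)
    have h3 : ∑ s ∈ insert u (P.erase s), w s = w u + ∑ s ∈ P.erase s, w s := Finset.sum_insert hu'
    have h4 : w s + ∑ s ∈ P.erase s, w s = ∑ s ∈ P, w s := Finset.add_sum_erase _ _ hs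
    have h5 : ∑ s ∈ insert u (P.erase s), w s ≤ ∑ s ∈ P, w s := h2
    omega
  have hsplit : ∀ g : ι → ℝ, ∑ s ∈ R, g s = ∑ s ∈ P, g s + ∑ s ∈ R \ P, g s := fun g => by
    rw [add_comm]
    exact (Finset.sum_sdiff hPR).symm
  rcases P.eq_empty_or_nonempty with hPe | hPn
  · rw [hPe, Finset.card_empty] at hPc
    rw [← hPc, Nat.cast_zero] at hs
    have h2 := (Finset.sum_eq_zero_iff_of_nonneg h0).1 (le_antisymm hs (Finset.sum_nonneg h0))
    rw [Finset.sum_eq_zero fun s hs => by rw [h2 s hs, zero_mul]]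
    exact Finset.sum_nonneg fun s _ => Nat.cast_nonneg _
  obtain ⟨s₀, hs₀, hmin⟩ := Finset.exists_min_image P w hPn
  rw [hsplit] at hs ⊢
  have h2 : ∑ s ∈ R \ P, y s * w s ≤ w s₀ * ∑ s ∈ R \ P, y s := by
    rw [Finset.mul_sum]
    refine Finset.sum_le_sum fun u hu => ?_
    rw [mul_comm]
    exact mul_le_mul_of_nonneg_right (by exact_mod_cast hex s₀ hs₀ u hu) (h0 u (Finset.mem_sdiff.1 hu).1)
  have h3 : (w s₀ : ℝ) * ∑ s ∈ R \ P, y s ≤ w s₀ * (m - ∑ s ∈ P, y s) :=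
    mul_le_mul_of_nonneg_left (by linarith) (Nat.cast_nonneg _)
  have h4 : (w s₀ : ℝ) * (m - ∑ s ∈ P, y s) = ∑ s ∈ P, w s₀ * (1 - y s) := by
    rw [← Finset.mul_sum, Finset.sum_sub_distrib, Finset.sum_const, nsmul_eq_mul, mul_one, hPc]
  have h5 : ∑ s ∈ P, (w s₀ : ℝ) * (1 - y s) ≤ ∑ s ∈ P, w s * (1 - y s) :=
    Finset.sum_le_sum fun s hs => mul_le_mul_of_nonneg_right (by exact_mod_cast hmin s hs) (by linarith [h1 s (hPR hs)])
  have h6 : ∑ s ∈ P, (w s : ℝ) = ∑ s ∈ P, y s * w s + ∑ s ∈ P, w s * (1 - y s) := by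
    rw [← Finset.sum_add_distrib]
    exact Finset.sum_congr rfl fun s _ => by ring
  linarith

/-- the values on `V ^ m` -/
private theorem val_pow42k {V : Submodule k E} {ω : E → ℝ} (h : RV k ω) {c : ℝ} (hV : ∀ x ∈ V, x ≠ 0 → 0 ≤ ω x + c)
    (m : ℕ) : ∀ x ∈ V ^ m, x ≠ 0 → -(m * c) ≤ ω x := by
  have key : ∀ m : ℕ, V ^ m ≤ lev h (-(m * c)) := by
    intro m
    induction m with
    | zero =>
      rw [pow_zero, Submodule.one_le]
      refine Or.inr ?_
      rw [rv_one42k h]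
      simp
    | succ m ih =>
      rw [pow_succ, Submodule.mul_le]
      intro x hx y hy
      by_cases hx0 : x = 0
      · rw [hx0, zero_mul]
        exact Submodule.zero_mem _
      by_cases hy0 : y = 0
      · rw [hy0, mul_zero]
        exact Submodule.zero_mem _
      refine Or.inr ?_
      rw [h.mul x y hx0 hy0]
      have h3 := hV y hy hy0
      rcases ih hx with h4 | h4
      · exact absurd h4 hx0
      · push_cast
        linarith
  intro x hx hx0
  rcases key m hx with h4 | h4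
  · exact absurd h4 hx0
  · exact h4

private theorem crv_pow42k {V : Submodule k E} (hC : Crv V) {m : ℕ} (hm : 0 < m) : Crv (V ^ m) := by
  have h1 : V ≤ V ^ m := by
    have := mono77 hC.one (Nat.succ_le_of_lt hm)
    rwa [Nat.succ_eq_add_one, zero_add, pow_one] at this
  refine ⟨h1 hC.one, ?_, ?_, hC.alg⟩
  · rw [eq_top_iff, ← hC.gen, IntermediateField.adjoin_le_iff]
    exact fun x hx => IntermediateField.subset_adjoin k _ (h1 hx)
  · obtain ⟨x, hx, hx'⟩ := hC.tr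
    exact ⟨x, h1 hx, hx'⟩

private theorem rv_scale42k {ω : E → ℝ} (h : RV k ω) {b : ℝ} (hb : 0 < b) : RV k fun x => ω x * b where
  mul x y hx hy := by rw [h.mul x y hx hy]; ring
  add x y hx hy hxy := by
    rw [← min_mul_of_nonneg _ _ hb.le]
    exact mul_le_mul_of_nonneg_right (h.add x y hx hy hxy) hb.le
  alg c hc := by rw [h.alg c hc, zero_mul]

theorem curve_alg_k [CharZero k] {A : Type*} [Fintype A] {V : Submodule k E} [FiniteDimensional k V] (hC : Crv V)
    {ω : A → E → ℝ} {c : A → ℝ} {r : ℕ} {h : ℝ} (hD : Dat V ω c r h) {q : ℕ} (L : Fin q → E) (hL : ∀ i, L i ∈ V)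
    (hL0 : ∀ i, L i ≠ 0) {e t : ℕ} (he : ∃ C : ℕ, ∀ m, finrank k ↥(V ^ m) ≤ e * m + C)
    (I2 : ((q : ℝ) * e - t) * h < e * ∑ i, ∑ α, (ω α (L i) + c α)) :
    ∃ (J : Finset (Fin q)) (p : ℕ) (M : Fin p → Fin q → ℕ), q < J.card + t ∧ p ≤ 2 * r ∧
      ∀ a : Fin q → ℤ, (∀ i, i ∉ J → a i = 0) → (∀ s, ∑ i, a i * M s i = 0) → ∑ i, a i = 0 ∧ IsAlgebraic k (∏ i, L i ^ a i) := by
  classical
  have htriv : ∀ a : Fin q → ℤ, (∀ i, a i = 0) → ∑ i, a i = 0 ∧ IsAlgebraic k (∏ i, L i ^ a i) := by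
    intro a ha
    refine ⟨Finset.sum_eq_zero fun i _ => ha i, ?_⟩
    rw [Finset.prod_eq_one fun i _ => by rw [ha i, zpow_zero]]
    exact isAlgebraic_one
  rcases Nat.lt_or_ge q t with hqt | hqt
  · exact ⟨∅, 0, fun _ _ => 0, by rw [Finset.card_empty, zero_add]; exact hqt, Nat.zero_le _, fun a ha _ =>
      htriv a fun i => ha i (Finset.notMem_empty i)⟩
  have hh := hD.h0
  -- the degree
  obtain ⟨e₀, C₀, hgr⟩ := grow_lin_of hC (pencil hC)
  have he1 : 1 ≤ e₀ := by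
    by_contra h1
    have h2 : e₀ = 0 := by omega
    have h3 := (grow_ge hC (C₀ + 1)).trans (hgr (C₀ + 1)).1
    rw [h2, zero_mul, zero_add] at h3
    omega
  have hee : e₀ ≤ e := by
    obtain ⟨C, hC'⟩ := he
    by_contra h1
    push Not at h1
    have h2 := (hgr (C₀ + C + 1)).2.trans (Nat.add_le_add_right (hC' (C₀ + C + 1)) C₀)
    have h3 : (e + 1) * (C₀ + C + 1) ≤ e₀ * (C₀ + C + 1) := Nat.mul_le_mul_right _ h1
    nlinarith
  have hGr : (e₀ : ℝ) ∈ Gr V := ⟨C₀, fun m => by exact_mod_cast (hgr m).2⟩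
  have he1' : (1 : ℝ) ≤ e₀ := by exact_mod_cast he1
  have hee' : (e₀ : ℝ) ≤ e := by exact_mod_cast hee
  have I2' : ((q : ℝ) * e₀ - t) * h < e₀ * ∑ i, ∑ α, (ω α (L i) + c α) := by
    have h1 : (0 : ℝ) < e := by linarith
    have h2 : (0 : ℝ) ≤ (t : ℝ) * h * (e - e₀) := mul_nonneg (mul_nonneg (Nat.cast_nonneg _) hh.le) (by linarith)
    have h3 := mul_lt_mul_of_pos_left I2 (lt_of_lt_of_le one_pos he1')
    by_contra h4
    push Not at h4
    have h5 := mul_le_mul_of_nonneg_left h4 h1.le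
    nlinarith
  have hAne : Nonempty A := by
    by_contra hA
    rw [not_nonempty_iff] at hA
    simp only [Finset.univ_eq_empty, Finset.sum_empty, Finset.sum_const_zero, mul_zero] at I2'
    have h1 : (t : ℝ) ≤ q * e₀ := by
      have h2 : (t : ℝ) ≤ q := by exact_mod_cast hqt
      have h3 : (0 : ℝ) ≤ q := Nat.cast_nonneg _
      nlinarith
    have h4 : 0 ≤ ((q : ℝ) * e₀ - t) * h := mul_nonneg (by linarith) hh.le
    linarith
  obtain ⟨l0, hl0, hl00, hl⟩ := exists_min42k hD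
  obtain ⟨R, ρ, τ, hR, hRp, hρ⟩ := classes42k ω
  have hx0 : ∀ i, L i / l0 ≠ 0 := fun i => div_ne_zero (hL0 i) hl00
  have hval : ∀ α i, ω α (L i) + c α = ω α (L i / l0) := fun α i => by
    rw [rv_div42k (hD.rv α) (hL0 i) hl00]; linarith [hl α]
  have hge : ∀ α i, 0 ≤ ω α (L i / l0) := fun α i => by
    rw [← hval]; exact hD.ge α _ (hL i) (hL0 i)
  -- the discrete valuations
  have hdv : ∀ s, ∃ (γ : ℝ) (f : ℕ), s ∈ R → DVal k (ω s) γ f := by
    intro s
    by_cases hs : s ∈ R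
    · obtain ⟨γ, f, h1⟩ := dval hC (hD.rv s) (hR s hs)
      exact ⟨γ, f, fun _ => h1⟩
    · exact ⟨0, 0, fun h1 => absurd h1 hs⟩
  choose γ f hdv using hdv
  have hM : ∀ s i, ∃ m : ℕ, s ∈ R → ω s (L i / l0) = m * γ s := by
    intro s i
    by_cases hs : s ∈ R
    · obtain ⟨n, hn⟩ := (hdv s hs).dvd _ (hx0 i)
      have h1 := hge s i
      rw [hn] at h1
      have h2 : (0 : ℝ) ≤ n := nonneg_of_mul_nonneg_left h1 (hdv s hs).γ0
      have h3 : 0 ≤ n := by exact_mod_cast h2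
      obtain ⟨m, rfl⟩ := Int.eq_ofNat_of_zero_le h3
      exact ⟨m, fun _ => by rw [hn]; norm_cast⟩
    · exact ⟨0, fun h1 => absurd h1 hs⟩
  choose M hM using hM
  -- zeros of an element of `V ^ m` in `Q ⊆ R`
  have hdeg : ∀ (Q : Finset A), Q ⊆ R → ∀ (m : ℕ), ∀ x ∈ V ^ m, x ≠ 0 → ∀ N : A → ℕ, (∀ s ∈ Q, ω s (x / l0 ^ m) = N s * γ s) →
      ∑ s ∈ Q, f s * N s ≤ e₀ * m := by
    intro Q hQ m x hx hx00 N hN
    rcases Nat.eq_zero_or_pos m with rfl | hm
    · rw [pow_zero, Submodule.mem_one] at hx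
      obtain ⟨y, rfl⟩ := hx
      have hy : y ≠ 0 := by
        rintro rfl
        exact hx00 (map_zero _)
      rw [mul_zero, Nat.le_zero]
      refine Finset.sum_eq_zero fun s hs => ?_
      have h1 := hN s hs
      rw [pow_zero, div_one, (hD.rv s).alg y hy] at h1
      have h2 := (hdv s (hQ hs)).γ0
      have h3 : ((N s : ℕ) : ℝ) = 0 := by
        rcases mul_eq_zero.1 h1.symm with h3 | h3
        · exact h3
        · exact absurd h3 h2.ne'
      rw [Nat.cast_eq_zero.1 h3, mul_zero]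
    · have hfd : FiniteDimensional k ↥(V ^ m) :=
        (Submodule.fg_iff_finiteDimensional _).1 (((Submodule.fg_iff_finiteDimensional V).2 inferInstance).pow m)
      obtain ⟨δ, h1⟩ := pl (k := k) (ι := {s // s ∈ Q}) (fun s => ω s.1) (fun s => γ s.1) (fun s => f s.1)
        (fun s => hdv s.1 (hQ s.2)) (fun s s' hss => hRp s.1 (hQ s.2) s'.1 (hQ s'.2) fun h2 => hss (Subtype.ext h2))
        (crv_pow42k hC hm) (fun s => N s.1) x (l0 ^ m) hx (Submodule.pow_mem_pow _ hl0 m) hx00 (pow_ne_zero _ hl00)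
        (fun s => hN s.1 s.2)
      have h2 : ∑ s : {s // s ∈ Q}, f s.1 * N s.1 = ∑ s ∈ Q, f s * N s := Finset.sum_coe_sort Q fun s => f s * N s
      rw [h2] at h1
      refine slope_le42k (V := V ^ m) (δ := δ) (C := C₀) h1 fun j => ?_
      rw [← pow_mul]
      refine (hgr (m * j)).1.trans (le_of_eq ?_)
      ring
  -- the slopes
  obtain ⟨x, hx⟩ : ∃ x : A → ℝ, ∀ s, x s = (∑ α ∈ Finset.univ.filter (fun α => ¬ Triv (ω α) ∧ ρ α = s), τ α) * γ s / f s :=
    ⟨_, fun _ => rfl⟩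
  have hf0 : ∀ s ∈ R, (0 : ℝ) < f s := fun s hs => by exact_mod_cast (hdv s hs).f0
  have hxnn : ∀ s ∈ R, 0 ≤ x s := by
    intro s hs
    rw [hx]
    refine div_nonneg (mul_nonneg (Finset.sum_nonneg fun α hα => ?_) (hdv s hs).γ0.le) (Nat.cast_nonneg _)
    exact (hρ α (Finset.mem_filter.1 hα).2.1).2.1.le
  have hxT : ∀ s ∈ R, x s * e₀ ≤ h := by
    intro s hs
    rw [hx]
    refine gam_le hD s (hdv s hs) _ τ (fun α hα => (hρ α (Finset.mem_filter.1 hα).2.1).2.1) (fun α hα y hy => ?_) hGr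
    have h1 := (Finset.mem_filter.1 hα).2
    rw [(hρ α h1.1).2.2 y hy, h1.2]
  have hfib : ∀ g : A → ℝ, (∀ α, Triv (ω α) → g α = 0) →
      ∑ α, g α = ∑ s ∈ R, ∑ α ∈ Finset.univ.filter (fun α => ¬ Triv (ω α) ∧ ρ α = s), g α := by
    intro g hg
    have h1 : ∑ α, g α = ∑ α ∈ Finset.univ.filter (fun α => ¬ Triv (ω α)), g α := by
      rw [Finset.sum_filter]
      refine Finset.sum_congr rfl fun α _ => ?_
      by_cases h2 : Triv (ω α)
      · rw [if_neg (not_not.2 h2), hg α h2]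
      · rw [if_pos h2]
    rw [h1, ← Finset.sum_fiberwise_of_maps_to (s := Finset.univ.filter (fun α => ¬ Triv (ω α))) (t := R) (g := ρ)
      fun α hα => (hρ α (Finset.mem_filter.1 hα).2).1]
    refine Finset.sum_congr rfl fun s _ => ?_
    rw [Finset.filter_filter]
  have hsum : ∀ i, ∑ s ∈ R, x s * (f s * M s i : ℕ) = ∑ α, (ω α (L i) + c α) := by
    intro i
    rw [Finset.sum_congr rfl fun α _ => hval α i, hfib (fun α => ω α (L i / l0)) fun α hα => hα _ (hx0 i)]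
    refine Finset.sum_congr rfl fun s hs => ?_
    have h1 : ∀ α ∈ Finset.univ.filter (fun α => ¬ Triv (ω α) ∧ ρ α = s), ω α (L i / l0) = τ α * (M s i * γ s) := by
      intro α hα
      have h2 := (Finset.mem_filter.1 hα).2
      rw [(hρ α h2.1).2.2 _ (hx0 i), h2.2, hM s i hs]
    rw [Finset.sum_congr rfl h1, ← Finset.sum_mul, hx]
    have h3 := hf0 s hs
    push_cast
    field_simp
  have hcard : (∑ s ∈ R, x s) * e₀ ≤ 2 * r * h := by
    have h2 := sum_s hD (Finset.univ.filter fun α => ¬ Triv (ω α)) (fun α => τ α * γ (ρ α)) (fun α => f (ρ α))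
      (fun α hα => by
        have h3 := (Finset.mem_filter.1 hα).2
        exact dval_scale42k (hdv _ (hρ α h3).1) (hD.rv α) (hρ α h3).2.1 (hρ α h3).2.2) hGr
    have h3 : ∑ α ∈ Finset.univ.filter (fun α => ¬ Triv (ω α)), τ α * γ (ρ α) / f (ρ α) = ∑ s ∈ R, x s := by
      rw [← Finset.sum_fiberwise_of_maps_to (s := Finset.univ.filter fun α => ¬ Triv (ω α)) (t := R) (g := ρ)
        fun α hα => (hρ α (Finset.mem_filter.1 hα).2).1]
      refine Finset.sum_congr rfl fun s hs => ?_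
      rw [hx, Finset.filter_filter, Finset.sum_mul, Finset.sum_div]
      refine Finset.sum_congr rfl fun α hα => ?_
      rw [(Finset.mem_filter.1 hα).2.2]
    rw [h3] at h2
    exact h2
  -- the places
  obtain ⟨w, hw⟩ : ∃ w : A → ℕ, ∀ s, w s = ∑ i, f s * M s i := ⟨_, fun _ => rfl⟩
  obtain ⟨P, hPR, hPc, hPw⟩ := top42k R (2 * r) (fun s => x s * e₀ / h) w
    (fun s hs => div_nonneg (mul_nonneg (hxnn s hs) (Nat.cast_nonneg _)) hh.le)
    (fun s hs => by rw [div_le_one hh]; exact hxT s hs) (by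
      rw [← Finset.sum_div, ← Finset.sum_mul, div_le_iff₀ hh]
      push_cast
      exact hcard)
  have hPw' : ((q : ℝ) * e₀ - t) < ∑ s ∈ P, (w s : ℝ) := by
    refine lt_of_lt_of_le ?_ hPw
    have h1 : ∑ s ∈ R, x s * e₀ / h * w s = e₀ * (∑ i, ∑ α, (ω α (L i) + c α)) / h := by
      rw [← Finset.sum_congr rfl fun i _ => hsum i, Finset.sum_comm, Finset.mul_sum, Finset.sum_div]
      refine Finset.sum_congr rfl fun s _ => ?_
      rw [hw, Nat.cast_sum, Finset.mul_sum, Finset.mul_sum, Finset.sum_div]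
      exact Finset.sum_congr rfl fun i _ => by ring
    rw [h1, lt_div_iff₀ hh]
    exact I2'
  have hu : ∀ i, ∑ s ∈ P, f s * M s i ≤ e₀ := by
    intro i
    have h1 := hdeg P hPR 1 (L i) (by rw [pow_one]; exact hL i) (hL0 i) (fun s => M s i) fun s hs => by
      rw [pow_one]
      exact hM s i (hPR hs)
    rwa [mul_one] at h1
  have huR : ∀ i, ∑ s ∈ R, f s * M s i ≤ e₀ := by
    intro i
    have h1 := hdeg R subset_rfl 1 (L i) (by rw [pow_one]; exact hL i) (hL0 i) (fun s => M s i) fun s hs => by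
      rw [pow_one]
      exact hM s i hs
    rwa [mul_one] at h1
  set J : Finset (Fin q) := Finset.univ.filter fun i => ∑ s ∈ P, f s * M s i = e₀ with hJ
  have hJi : ∀ i, i ∈ J ↔ ∑ s ∈ P, f s * M s i = e₀ := fun i => by
    rw [hJ, Finset.mem_filter]
    exact ⟨fun h => h.2, fun h => ⟨Finset.mem_univ _, h⟩⟩
  have hJc : q < J.card + t := by
    have h1 : ∑ s ∈ P, w s = ∑ i, ∑ s ∈ P, f s * M s i := by
      rw [Finset.sum_comm]
      exact Finset.sum_congr rfl fun s _ => hw s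
    have h2 : ∑ i, (∑ s ∈ P, f s * M s i + if i ∈ J then 0 else 1) ≤ ∑ _i : Fin q, e₀ := by
      refine Finset.sum_le_sum fun i _ => ?_
      split_ifs with hi
      · exact hu i
      · have h3 := hu i
        have h4 : ∑ s ∈ P, f s * M s i ≠ e₀ := fun h => hi ((hJi i).2 h)
        omega
    rw [Finset.sum_add_distrib, ← h1, Finset.sum_const, Finset.card_univ, Fintype.card_fin, smul_eq_mul] at h2
    have h3 : ∑ i, (if i ∈ J then 0 else 1) = q - J.card := by
      rw [Finset.sum_ite, Finset.sum_const_zero, zero_add, Finset.sum_const, smul_eq_mul, mul_one]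
      have h4 : (Finset.univ.filter fun i => i ∉ J) = Jᶜ := by
        ext i
        simp
      rw [h4, Finset.card_compl, Fintype.card_fin]
    rw [h3] at h2
    have h4 : J.card ≤ q := by
      have := Finset.card_le_univ J
      rwa [Fintype.card_fin] at this
    have h5 : (q * e₀ : ℝ) < (∑ s ∈ P, w s : ℕ) + t := by
      push_cast
      linarith
    have h6 : q * e₀ < ∑ s ∈ P, w s + t := by exact_mod_cast h5
    omega
  refine ⟨J, P.card, fun j i => M (P.equivFin.symm j).1 i, hJc, hPc, ?_⟩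
  intro a haJ ha
  rcases J.eq_empty_or_nonempty with hJe | ⟨i₀, hi₀⟩
  · exact htriv a fun i => haJ i (by rw [hJe]; exact Finset.notMem_empty i)
  have haP : ∀ s ∈ P, ∑ i, a i * (M s i : ℤ) = 0 := by
    intro s hs
    have h2 := ha (P.equivFin ⟨s, hs⟩)
    simpa using h2
  have hsa : ∑ i, a i = 0 := by
    have h1 : (∑ i, a i) * (e₀ : ℤ) = 0 := by
      calc (∑ i, a i) * (e₀ : ℤ) = ∑ i, a i * ((∑ s ∈ P, f s * M s i : ℕ) : ℤ) := by
            rw [Finset.sum_mul]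
            refine Finset.sum_congr rfl fun i _ => ?_
            by_cases hi : i ∈ J
            · rw [(hJi i).1 hi]
            · rw [haJ i hi, zero_mul, zero_mul]
        _ = ∑ s ∈ P, (f s : ℤ) * ∑ i, a i * (M s i : ℤ) := by
            simp_rw [Nat.cast_sum, Finset.mul_sum]
            rw [Finset.sum_comm]
            refine Finset.sum_congr rfl fun s _ => Finset.sum_congr rfl fun i _ => ?_
            push_cast
            ring
        _ = 0 := Finset.sum_eq_zero fun s hs => by rw [haP s hs, mul_zero]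
    rcases mul_eq_zero.1 h1 with h2 | h2
    · exact h2
    · have : e₀ = 0 := by exact_mod_cast h2
      omega
  refine ⟨hsa, ?_⟩
  have hb : ∀ s ∈ R, 0 < (f s : ℝ) / γ s := fun s hs => div_pos (hf0 s hs) (hdv s hs).γ0
  refine alg_of_val_k (A := {s // s ∈ P}) hC (ω := fun s x => ω s.1 x * (f s.1 / γ s.1))
    (c := fun s => c s.1 * (f s.1 / γ s.1)) (h := e₀) (fun s => rv_scale42k (hD.rv s.1) (hb s.1 (hPR s.2))) ?_ L hL hL0 ?_ a ?_ hsa ?_
  · intro m y hy hy0
    have h1 : ∀ s, ∃ n : ℕ, s ∈ R → ω s (y / l0 ^ m) = n * γ s := by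
      intro s
      by_cases hs : s ∈ R
      · obtain ⟨n, hn⟩ := (hdv s hs).dvd (y / l0 ^ m) (div_ne_zero hy0 (pow_ne_zero _ hl00))
        have h1 := val_pow42k (hD.rv s) (fun x hx hx0 => hD.ge s x hx hx0) m y hy hy0
        have h2 : 0 ≤ ω s (y / l0 ^ m) := by
          rw [rv_div42k (hD.rv s) hy0 (pow_ne_zero _ hl00), rv_pow42k (hD.rv s) hl00]
          have h3 := hl s
          have h4 : (m : ℝ) * ω s l0 = -(m * c s) := by
            rw [← mul_neg]
            congr 1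
            linarith
          linarith
        rw [hn] at h2
        have h3 : (0 : ℝ) ≤ n := nonneg_of_mul_nonneg_left h2 (hdv s hs).γ0
        have h4 : 0 ≤ n := by exact_mod_cast h3
        obtain ⟨m, rfl⟩ := Int.eq_ofNat_of_zero_le h4
        exact ⟨m, fun _ => by rw [hn]; norm_cast⟩
      · exact ⟨0, fun h1 => absurd h1 hs⟩
    choose N hN using h1
    have h2 := hdeg P hPR m y hy hy0 N fun s hs => hN s (hPR hs)
    have h3 : ∑ s : {s // s ∈ P}, (ω s.1 y * (f s.1 / γ s.1) + m * (c s.1 * (f s.1 / γ s.1))) = ∑ s ∈ P, ((f s * N s : ℕ) : ℝ) := by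
      rw [Finset.sum_coe_sort P fun s => ω s y * (f s / γ s) + m * (c s * (f s / γ s))]
      refine Finset.sum_congr rfl fun s hs => ?_
      have h4 := hN s (hPR hs)
      rw [rv_div42k (hD.rv s) hy0 (pow_ne_zero _ hl00), rv_pow42k (hD.rv s) hl00] at h4
      have h5 := hl s
      have h6 : ω s y + m * c s = N s * γ s := by
        rw [← h4, show c s = -ω s l0 by linarith]
        ring
      have h7 := (hdv s (hPR hs)).γ0
      have h8 : ω s y * (f s / γ s) + m * (c s * (f s / γ s)) = (ω s y + m * c s) * (f s / γ s) := by ring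
      rw [h8, h6]
      push_cast
      field_simp
    rw [h3, ← Nat.cast_sum]
    have h4 : ((∑ s ∈ P, f s * N s : ℕ) : ℝ) ≤ (e₀ * m : ℕ) := by exact_mod_cast h2
    push_cast at h4 ⊢
    linarith
  · have h1 := (hJi i₀).1 hi₀
    have hPn : P.Nonempty := by
      by_contra h2
      rw [Finset.not_nonempty_iff_eq_empty] at h2
      rw [h2, Finset.sum_empty] at h1
      omega
    obtain ⟨s, hs⟩ := hPn
    refine ⟨⟨s, hs⟩, fun h2 => hR s (hPR hs) fun y hy => ?_⟩
    exact (mul_eq_zero.1 (h2 y hy)).resolve_right (hb s (hPR hs)).ne'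
  · intro i hi
    have hiJ : i ∈ J := by
      by_contra h1
      exact hi (haJ i h1)
    have h1 := (hJi i).1 hiJ
    have h3 : ∑ s : {s // s ∈ P}, (ω s.1 (L i) * (f s.1 / γ s.1) + c s.1 * (f s.1 / γ s.1)) = ∑ s ∈ P, ((f s * M s i : ℕ) : ℝ) := by
      rw [Finset.sum_coe_sort P fun s => ω s (L i) * (f s / γ s) + c s * (f s / γ s)]
      refine Finset.sum_congr rfl fun s hs => ?_
      have h4 := hM s i (hPR hs)
      have h7 := (hdv s (hPR hs)).γ0
      rw [← add_mul, hval, h4]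
      push_cast
      field_simp
    rw [h3, ← Nat.cast_sum, h1]
  · rintro ⟨s, hs⟩
    show ω s (∏ i, L i ^ a i) * (f s / γ s) = 0
    rw [rv_prod42k (hD.rv s) L hL0 a]
    have h1 : ∀ i, ω s (L i) = ω s l0 + γ s * M s i := by
      intro i
      have h2 := hM s i (hPR hs)
      rw [rv_div42k (hD.rv s) (hL0 i) hl00] at h2
      linarith
    have h2 : ∑ i, (a i : ℝ) * ω s (L i) = ω s l0 * ∑ i, (a i : ℝ) + γ s * ∑ i, (a i : ℝ) * (M s i : ℝ) := by
      rw [Finset.mul_sum, Finset.mul_sum, ← Finset.sum_add_distrib]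
      exact Finset.sum_congr rfl fun i _ => by rw [h1 i]; ring
    have h3 : ∑ i, (a i : ℝ) = 0 := by exact_mod_cast hsa
    have h4 : ∑ i, (a i : ℝ) * (M s i : ℝ) = 0 := by exact_mod_cast haP s hs
    rw [h2, h3, h4, mul_zero, mul_zero, add_zero, zero_mul]

end

end Pool.Agent.CV
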