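import Pool.Agent.Helper6.TRI.GDefs

/-!
# CV: curves in varieties of every dimension, definitions
-/

set_option autoImplicit false

namespace Pool.Agent.CV

open Module MvPolynomial Pool.Agent.TRI

universe u

/-- the homogeneous ideal of an irreducible closed subset of dimension `n` of the projective space `P^N` -/
structure Vty {k₀ : Type u} [Field k₀] {N : ℕ} (n : ℕ) (I : Ideal (MvPolynomial (Fin (N + 1)) k₀)) : Prop where
  hom : ∀ p ∈ I, ∀ m, homogeneousComponent m p ∈ I
  prime : I.IsPrime
  tr : Algebra.trdeg k₀ (MvPolynomial (Fin (N + 1)) k₀ ⧸ I) = n + 1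

/-- every nonconstant point spans a space of dimension at least `e + 1` over the constants -/
def Spn {k₀ : Type u} [Field k₀] {N : ℕ} (e : ℕ) (I : Ideal (MvPolynomial (Fin (N + 1)) k₀)) : Prop :=
  ∀ (E : Type u) [Field E] [Algebra k₀ E] (κ : IntermediateField k₀ E), AC κ → ∀ ξ : Fin (N + 1) → E, (∃ j, ξ j = 1) →
    OnX I ξ → (∃ j, ξ j ∉ κ) → e + 1 ≤ finrank κ (Submodule.span κ (Set.range ξ))

/-- the vectors `α` with `∑ α i dz i / z i = 0` in the differentials of `R` over `M` -/
def Nul (M : Type*) {R : Type*} [Field M] [Field R] [Algebra M R] {q : ℕ} (z : Fin q → R) : Submodule M (Fin q → M) where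
  carrier := {α | ∀ D : Derivation M R R, ∑ i, algebraMap M R (α i) * (D (z i) / z i) = 0}
  zero_mem' := by
    intro D
    simp
  add_mem' := by
    intro α β h h' D
    simp only [Pi.add_apply, map_add, add_mul, Finset.sum_add_distrib, h D, h' D, add_zero]
  smul_mem' := by
    intro c α h D
    simp only [Pi.smul_apply, smul_eq_mul, map_mul, mul_assoc, ← Finset.mul_sum, h D, mul_zero]

end Pool.Agent.CV
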