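import Pool.Agent.Helper21.CV.Core
import Pool.Agent.Helper24.CV.Claim1
import Pool.Agent.Helper71.CV.Rat
import Pool.Agent.Helper17.CV.DerBasis
import Pool.Agent.Helper20.DER.Ext

/-!
# CV, C6: the field form

`M` is the field of the zeros of a derivation of `F`; relations with coefficients in `M` between the logarithmic derivatives of generic
linear forms at a point whose field has transcendence degree at most `n`.
-/

set_option autoImplicit false

namespace Pool.Agent.CV

open Module MvPolynomial Pool.Agent.TRI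
open Pool.Agent.Helper21.TS (Ext1)

universe u

private theorem arith42 {ρ ρ' m n e e' : ℕ} (hm : 0 < m) (h1 : ρ ≤ (m - 1) + ρ') (h2 : (ρ' + m) * e' ≤ ρ' + n * e') (h3 : e + 1 ≤ e') :
    e * (ρ + 1) < n * (e + 1) := by
  obtain ⟨s, rfl⟩ := Nat.exists_eq_add_of_le h3
  have h4 : ρ + 1 ≤ ρ' + m := by omega
  have h5 : e * (ρ + 1) ≤ e * (ρ' + m) := Nat.mul_le_mul_left e h4
  refine lt_of_le_of_lt h5 ?_
  rcases Nat.lt_or_ge n (ρ' + m) with h | h
  · obtain ⟨b, hb⟩ := Nat.exists_eq_add_of_lt h
    have h6 : (ρ' + m) * (e + 1 + s) = e * (ρ' + m) + (ρ' + m) + (ρ' + m) * s := by ring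
    have h7 : (ρ' + m) * s = n * s + (b + 1) * s := by rw [hb]; ring
    have h8 : n * (e + 1 + s) = n * (e + 1) + n * s := by ring
    have h9 : 0 ≤ (b + 1) * s := Nat.zero_le _
    omega
  · have hn : 0 < n := by omega
    have h6 : e * (ρ' + m) ≤ e * n := Nat.mul_le_mul_left e h
    have h7 : n * (e + 1) = e * n + n := by ring
    omega

private theorem field_aux {k₀ M F : Type u} [Field k₀] [CharZero k₀] [Field M] [Field F] [Algebra k₀ M] [Algebra k₀ F] [Algebra M F]
    [IsScalarTower k₀ M F] {N q n ρ e : ℕ} (l : Fin q → Fin (N + 1) → M)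
    (hl : AlgebraicIndependent k₀ fun p : Fin q × Fin (N + 1) => l p.1 p.2) (y : Fin (N + 1) → F)
    (htr : Algebra.trdeg k₀ (IntermediateField.adjoin k₀ (Set.range y)) ≤ n) (η : Derivation M F F)
    (hker : ∀ x, η x = 0 → ∃ c, algebraMap M F c = x) (hly : ∀ i, lv (l i) y ≠ 0) (α : Fin ρ → Fin q → M)
    (hα : LinearIndependent M α) (hrel : ∀ s, ∑ i, algebraMap M F (α s i) * (η (lv (l i) y) / lv (l i) y) = 0) (he : 0 < e)
    (hsp : e + 1 ≤ finrank M (Submodule.span M (Set.range y))) (R : IntermediateField M F) (hy : ∀ c, y c ∈ R)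
    (hfg : ∃ s : Finset R, IntermediateField.adjoin M (s : Set R) = ⊤) (m : ℕ) (d : Fin m → Derivation M R R)
      (t : Fin m → R) (η' : Fin m → Derivation M F F) (hcomm : ∀ b c x, d b (d c x) = d c (d b x))
      (hspan : ∀ D : Derivation M R R, ∀ x, D x = ∑ b, D (t b) * d b x)
      (hspanF : ∀ D : Derivation M R F, ∀ x, D x = ∑ b, D (t b) * (d b x : F))
      (hli : LinearIndependent F fun b => fun c => η' b (y c)) : e * (ρ + 1) < n * (e + 1) := by
  classical
  have hM0 : CharZero M := charZero_of_injective_algebraMap (algebraMap k₀ M).injective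
  -- the forms as elements of `R`
  have hLm : ∀ i, lv (l i) y ∈ R := by
    intro i
    unfold lv
    exact R.sum_mem fun j _ => R.mul_mem (R.algebraMap_mem _) (hy j)
  obtain ⟨z, hz⟩ : ∃ z : Fin q → R, ∀ i, ((z i : R) : F) = lv (l i) y := ⟨fun i => ⟨lv (l i) y, hLm i⟩, fun i => rfl⟩
  have hz0 : ∀ i, z i ≠ 0 := fun i h => hly i (by rw [← hz, h]; rfl)
  have hkerR : ∀ x : R, (η.compAlgebraMap R) x = 0 → ∃ c : M, algebraMap M R c = x := by
    intro x hx
    obtain ⟨c, hc⟩ := hker x hx
    exact ⟨c, Subtype.ext hc⟩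
  have hρ : ρ ≤ (m - 1) + finrank M (Nul M z) := by
    refine claim1 d hcomm (fun D => ⟨_, hspan D⟩) (η.compAlgebraMap R) (fun b => (η.compAlgebraMap R) (t b)) (hspanF (η.compAlgebraMap R))
      hkerR z hz0 α hα fun s => ?_
    rw [← hrel s]
    refine Finset.sum_congr rfl fun i _ => ?_
    have e1 : (η.compAlgebraMap R) (z i) = η (lv (l i) y) := by
      rw [← hz]; rfl
    have e2 : algebraMap R F (z i) = lv (l i) y := hz i
    rw [e1, e2]
  -- `M` is algebraically closed in `R`
  have hAC : ∀ x : R, IsAlgebraic M x → ∃ c, algebraMap M R c = x := by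
    intro x hx
    apply hkerR
    exact Pool.Agent.Helper21.TS.der_zero_of_algebraic (k₀ := M) (η.compAlgebraMap R) ∅ (by simp) x
      (hx.tower_top (IntermediateField.adjoin M (∅ : Set R)))
  obtain ⟨a, ha, hτ⟩ := rat hAC hfg z hz0
  -- `m` is positive
  have hm : 0 < m := by
    rcases Nat.eq_zero_or_pos m with h0 | h0
    · exfalso
      subst h0
      have h2 : ∀ c, ∃ b, algebraMap M F b = y c := by
        intro c
        have h3 := hspanF (η.compAlgebraMap R) ⟨y c, hy c⟩
        rw [Finset.univ_eq_empty, Finset.sum_empty] at h3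
        exact hker _ h3
      have h3 : Submodule.span M (Set.range y) ≤ Submodule.span M {1} := by
        rw [Submodule.span_le]
        rintro _ ⟨c, rfl⟩
        obtain ⟨b, hb⟩ := h2 c
        rw [SetLike.mem_coe, Submodule.mem_span_singleton]
        exact ⟨b, by rw [← hb, Algebra.smul_def, mul_one]⟩
      have h4 := (Submodule.finrank_mono h3).trans (finrank_span_le_card (R := M) ({1} : Set F))
      rw [Set.toFinset_card, Set.card_singleton] at h4
      omega
    · exact h0
  -- the extension of derivations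
  have hext : Ext1 k₀ M F := fun D₀ => Pool.Agent.Helper20.DER.extend_derivation D₀
  have hl' : ∀ p : Fin q × Fin (N + 1), ∃ D : Derivation k₀ M M, ∀ p' : Fin q × Fin (N + 1), D (l p'.1 p'.2) = if p' = p then 1 else 0 :=
    fun p => Pool.Agent.Helper20.DER.exists_derivation hl fun p' => if p' = p then 1 else 0
  have hcore := core hext l hl' y htr η' hli hly a ha (fun s => by
    obtain ⟨τ, hτ⟩ := hτ s
    refine ⟨τ, ?_⟩
    have h2 := congrArg (algebraMap R F) hτ
    rw [map_prod, ← IsScalarTower.algebraMap_apply] at h2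
    rw [← h2]
    unfold wv
    refine Finset.prod_congr rfl fun i _ => ?_
    rw [map_zpow₀, ← hz]
    rfl)
  exact arith42 hm hρ hcore hsp

theorem field_form {k₀ M F : Type u} [Field k₀] [CharZero k₀] [Field M] [Field F] [Algebra k₀ M] [Algebra k₀ F] [Algebra M F]
    [IsScalarTower k₀ M F] {N q n ρ e : ℕ} (l : Fin q → Fin (N + 1) → M)
    (hl : AlgebraicIndependent k₀ fun p : Fin q × Fin (N + 1) => l p.1 p.2) (y : Fin (N + 1) → F) (h1 : ∃ j, y j = 1)
    (htr : Algebra.trdeg k₀ (IntermediateField.adjoin k₀ (Set.range y)) ≤ n) (η : Derivation M F F)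
    (hker : ∀ x, η x = 0 → ∃ c, algebraMap M F c = x) (hly : ∀ i, lv (l i) y ≠ 0) (α : Fin ρ → Fin q → M)
    (hα : LinearIndependent M α) (hrel : ∀ s, ∑ i, algebraMap M F (α s i) * (η (lv (l i) y) / lv (l i) y) = 0) (he : 0 < e)
    (hsp : e + 1 ≤ finrank M (Submodule.span M (Set.range y))) : e * (ρ + 1) < n * (e + 1) := by
  classical
  have hM0 : CharZero M := charZero_of_injective_algebraMap (algebraMap k₀ M).injective
  obtain ⟨m, d, t, η', hcomm, hspan, hspanF, -, hli⟩ := der_basis (M := M) y
  refine field_aux l hl y htr η hker hly α hα hrel he hsp _ (fun c => IntermediateField.subset_adjoin _ _ (Set.mem_range_self c)) ?_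
    m d t η' hcomm hspan hspanF hli
  refine ⟨Finset.univ.image fun c => ⟨y c, IntermediateField.subset_adjoin _ _ (Set.mem_range_self c)⟩, ?_⟩
  apply IntermediateField.lift_injective
  rw [IntermediateField.lift_top, IntermediateField.lift_adjoin]
  congr 1
  ext x
  simp

end Pool.Agent.CV
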