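import Pool.Agent.Helper21.CV.Phi
import Pool.Agent.Helper20.DER.Ext
import Pool.Agent.Helper21.TS.Line

/-!
# CV, C8: the geometric theorem

There are at least `q - 2 r` independent relations between the forms on the curve.
-/

set_option autoImplicit false

namespace Pool.Agent.CV

open Module MvPolynomial Pool.Agent.TRI

universe u

private theorem rels42 {p q ρ : ℕ} (M : Fin p → Fin q → ℕ) (h : p + ρ ≤ q) :
    ∃ a : Fin ρ → Fin q → ℤ, LinearIndependent ℤ a ∧ ∀ t s, ∑ i, a t i * M s i = 0 := by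
  obtain ⟨f, hf⟩ : ∃ f : (Fin q → ℤ) →ₗ[ℤ] (Fin p → ℤ), ∀ a s, f a s = ∑ i, a i * M s i :=
    ⟨{ toFun := fun a s => ∑ i, a i * M s i
       map_add' := fun a b => by
        ext s
        simp only [Pi.add_apply, add_mul, Finset.sum_add_distrib]
       map_smul' := fun c a => by
        ext s
        simp only [Pi.smul_apply, smul_eq_mul, RingHom.id_apply, Finset.mul_sum, mul_assoc] }, fun a s => rfl⟩
  have h1 : finrank ℤ (LinearMap.range f) + finrank ℤ (LinearMap.ker f) = q := by
    rw [← f.quotKerEquivRange.finrank_eq, Submodule.finrank_quotient_add_finrank, Module.finrank_fin_fun]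
  have h2 : finrank ℤ (LinearMap.range f) ≤ p := by
    have := Submodule.finrank_le (LinearMap.range f)
    rwa [Module.finrank_fin_fun] at this
  have h3 : ρ ≤ finrank ℤ (LinearMap.ker f) := by omega
  obtain ⟨B⟩ : Nonempty (Basis (Fin (finrank ℤ (LinearMap.ker f))) ℤ (LinearMap.ker f)) := ⟨Module.finBasis ℤ _⟩
  have h4 : LinearIndependent ℤ fun i => ((B i : LinearMap.ker f) : Fin q → ℤ) :=
    B.linearIndependent.map' (LinearMap.ker f).subtype (Submodule.ker_subtype _)
  refine ⟨fun t => (B (Fin.castLE h3 t) : LinearMap.ker f), h4.comp (Fin.castLE h3) (Fin.castLE_injective h3), fun t s => ?_⟩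
  rw [← hf]
  have h6 : f (B (Fin.castLE h3 t) : LinearMap.ker f) = 0 := (B (Fin.castLE h3 t) : LinearMap.ker f).2
  rw [h6]; rfl

/-- a derivation of the function field of a curve whose zeros are the constants -/
theorem der_crv {k E : Type u} [Field k] [CharZero k] [Field E] [Algebra k E] {V : Submodule k E} (hC : Crv V) {k₀ : Type u}
    [Field k₀] [Algebra k₀ k] [Algebra k₀ E] [IsScalarTower k₀ k E] (κ : IntermediateField k₀ E) (hκ : ∀ y, y ∈ κ ↔ IsAlgebraic k y) :
    ∃ η : Derivation κ E E, ∀ x, η x = 0 → x ∈ κ := by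
  classical
  obtain ⟨x, -, hx⟩ := hC.tr
  let φ : k →+* κ := (algebraMap k E).codRestrict κ fun c => (hκ _).2 (isAlgebraic_algebraMap c)
  let _ : Algebra k κ := φ.toAlgebra
  have : IsScalarTower k κ E := IsScalarTower.of_algebraMap_eq fun c => rfl
  have : CharZero κ := charZero_of_injective_algebraMap (algebraMap k κ).injective
  have hκalg : Algebra.IsAlgebraic k κ := ⟨fun y => by
    have h4 := (hκ y).1 y.2
    exact (isAlgebraic_algebraMap_iff (R := k) (algebraMap κ E).injective).1 h4⟩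
  have hadj : ∀ z w : E, IsAlgebraic (IntermediateField.adjoin k {z}) w → IsAlgebraic (IntermediateField.adjoin κ {z}) w := by
    intro z w hw
    have hle : ∀ v ∈ IntermediateField.adjoin k {z}, v ∈ IntermediateField.adjoin κ {z} := by
      intro v hv
      have h1 : IntermediateField.adjoin k {z} ≤ (IntermediateField.adjoin κ {z}).restrictScalars k := by
        rw [IntermediateField.adjoin_le_iff]
        rintro _ rfl
        exact IntermediateField.mem_adjoin_simple_self κ _
      exact h1 hv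
    obtain ⟨P, hP0, hP⟩ := hw
    let ψ : IntermediateField.adjoin k {z} →+* IntermediateField.adjoin κ {z} :=
      (algebraMap (IntermediateField.adjoin k {z}) E).codRestrict _ fun v => hle v v.2
    refine ⟨P.map ψ, (Polynomial.map_ne_zero_iff ψ.injective).2 hP0, ?_⟩
    rw [Polynomial.aeval_def, Polynomial.eval₂_map]
    exact hP
  have hxκ : Transcendental κ x := by
    intro h
    exact hx (by
      have := (Algebra.IsAlgebraic.isAlgebraic (R := k) (A := κ))
      exact h.restrictScalars k)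
  obtain ⟨D, hD⟩ := Pool.Agent.Helper20.DER.exists_derivation
    (algebraicIndependent_unique_type_iff.2 hxκ : AlgebraicIndependent κ fun _ : Unit => x) fun _ => 1
  refine ⟨D, fun z hz => ?_⟩
  rw [hκ]
  by_contra hzt
  have h1 := hadj z x (hC.alg z x hzt)
  have h2 := Pool.Agent.Helper21.TS.der_zero_of_algebraic D {z} (by rintro _ rfl; exact hz) x h1
  rw [hD ()] at h2
  exact one_ne_zero h2

theorem cv_geo {k₀ : Type u} [Field k₀] [CharZero k₀] {N n : ℕ} {I : Ideal (MvPolynomial (Fin (N + 1)) k₀)} (hX : Vty n I) {q r e : ℕ}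
    (he : 0 < e) (hS : Spn e I) (hq : 2 * r ≤ q) (hnum : n * (e + 1) + e * (2 * r) ≤ e * (q + 1)) :
    ∃ Φ : MvPolynomial (Fin q × Fin (N + 1)) k₀, Φ ≠ 0 ∧
    ∀ (k : Type u) [Field k] [Algebra k₀ k] (l : Fin q → Fin (N + 1) → k),
    aeval (fun p : Fin q × Fin (N + 1) => l p.1 p.2) Φ ≠ 0 → ∀ (E : Type u) [Field E] [Algebra k E] [Algebra k₀ E]
      [IsScalarTower k₀ k E] (ξ : Fin (N + 1) → E), (∃ j, ξ j = 1) → Crv (Submodule.span k (Set.range ξ)) → OnX I ξ →
      (∀ i, lv (l i) ξ ≠ 0) → ∀ (p : ℕ) (M : Fin p → Fin q → ℕ), p ≤ 2 * r →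
      (∀ a : Fin q → ℤ, (∀ s, ∑ i, a i * M s i = 0) → ∑ i, a i = 0 ∧ IsAlgebraic k (wv l ξ a)) → False := by
  classical
  obtain ⟨ρ, rfl⟩ := Nat.exists_eq_add_of_le hq
  obtain ⟨Φ, hΦ0, hΦ⟩ := cv_phi hX (q := 2 * r + ρ) (ρ := ρ) he (by
    have h1 : e * (2 * r + ρ + 1) = e * (ρ + 1) + e * (2 * r) := by ring
    omega)
  refine ⟨Φ, hΦ0, ?_⟩
  intro k _ _ l hl E _ _ _ _ ξ hξ1 hC hξ hlξ p M hp hM
  have : CharZero k := charZero_of_injective_algebraMap (algebraMap k₀ k).injective
  obtain ⟨κ, hκ⟩ : ∃ κ : IntermediateField k₀ E, ∀ y, y ∈ κ ↔ IsAlgebraic k y :=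
    ⟨(algebraicClosure k E).restrictScalars k₀, fun y => mem_algebraicClosure_iff⟩
  obtain ⟨η, hη⟩ := der_crv hC κ hκ
  -- the coefficients in `κ`
  obtain ⟨φ, hφ⟩ : ∃ φ : k →ₐ[k₀] κ, ∀ c, ((φ c : κ) : E) = algebraMap k E c := by
    refine ⟨{ toRingHom := (algebraMap k E).codRestrict κ fun c => (hκ _).2 (isAlgebraic_algebraMap c)
              commutes' := fun c => Subtype.ext (IsScalarTower.algebraMap_apply k₀ k E c).symm }, fun c => rfl⟩
  have hlv : ∀ i, lv (fun c => φ (l i c)) ξ = lv (l i) ξ := fun i => by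
    unfold lv
    exact Finset.sum_congr rfl fun j _ => by rw [← hφ]; rfl
  have hwv : ∀ a, wv (fun i c => φ (l i c)) ξ a = wv l ξ a := fun a => by
    unfold wv
    exact Finset.prod_congr rfl fun i _ => by rw [hlv]
  have hl' : aeval (fun p : Fin (2 * r + ρ) × Fin (N + 1) => φ (l p.1 p.2)) Φ ≠ 0 := by
    have h5 : aeval (fun p : Fin (2 * r + ρ) × Fin (N + 1) => φ (l p.1 p.2)) Φ =
        φ (aeval (fun p : Fin (2 * r + ρ) × Fin (N + 1) => l p.1 p.2) Φ) := by
      rw [← AlgHom.comp_apply, comp_aeval]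
    rw [h5]
    exact (map_ne_zero φ).2 hl
  have hAC : AC κ := by
    intro y hy
    rw [hκ]
    let _ : Algebra k κ := φ.toRingHom.toAlgebra
    have : IsScalarTower k κ E := IsScalarTower.of_algebraMap_eq fun c => (hφ c).symm
    have hκalg : Algebra.IsAlgebraic k κ := ⟨fun y =>
      (isAlgebraic_algebraMap_iff (R := k) (algebraMap κ E).injective).1 ((hκ y).1 y.2)⟩
    exact hy.restrictScalars k
  have hnc : ∃ j, ξ j ∉ κ := by
    by_contra hcon
    push Not at hcon
    obtain ⟨x, hx, hxt⟩ := hC.tr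
    apply hxt
    rw [← hκ]
    have h1 : ∀ x ∈ Submodule.span k (Set.range ξ), x ∈ κ := by
      intro x hx
      induction hx using Submodule.span_induction with
      | mem x hx => obtain ⟨j, rfl⟩ := hx; exact hcon j
      | zero => exact κ.zero_mem
      | add x y _ _ hx hy => exact κ.add_mem hx hy
      | smul c x _ hx =>
        rw [Algebra.smul_def, ← hφ]
        exact κ.mul_mem (φ c).2 hx
    exact h1 x hx
  obtain ⟨a, ha, hrel⟩ := rels42 M (by omega : p + ρ ≤ 2 * r + ρ)
  refine hΦ E κ η hη (fun i c => φ (l i c)) hl' ξ hξ1 hξ (fun i => by rw [hlv]; exact hlξ i) (hS E κ hAC ξ hξ1 hξ hnc) a ha fun s => ?_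
  rw [hwv, hκ]
  exact (hM (a s) (hrel s)).2

end Pool.Agent.CV
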