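import Pool.Agent.Helper42.CV.MDefs

/-!
# CV: curves, with the degree
-/

set_option autoImplicit false

namespace Pool.Agent.CV

open Module MvPolynomial

universe u

/-- at most `B m + B₂` forms of degree `m` are independent modulo the forms `G j`, for all `m`: the closed set of the common zeros has
dimension at most one and degree at most `B` -/
def CurB {k : Type u} [Field k] {N s e : ℕ} (B B₂ : ℕ) (G : Fin s → Sym (Fin (N + 1)) e → k) : Prop :=
  ∀ m : ℕ, finrank k ↥((homogeneousSubmodule (Fin (N + 1)) k m).map
    (Ideal.Quotient.mkₐ k (Ideal.span (Set.range fun j => fm (G j)))).toLinearMap) ≤ B * m + B₂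

end Pool.Agent.CV
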