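import Pool.Agent.Helper31.CV.Crv
import Pool.Agent.Helper6.CV.IneqT
import Pool.Agent.Helper42.CV.Geo
import Pool.Agent.Helper6.TRI.FinS

/-!
# CV, C9: the inequality for the points of a curve
-/

set_option autoImplicit false

namespace Pool.Agent.CV

open Module MvPolynomial NumberField Filter Pool.Agent.TRI
open Pool.Agent.Helper64.Vojta (Pl nv sn above)
open Pool.Agent.Chart (fld dg crd hgt val lam)

universe u

/-- there is no bad sequence on a curve -/
theorem seq_cv {k₀ : Type u} [Field k₀] [NumberField k₀] {N n : ℕ} {I : Ideal (MvPolynomial (Fin (N + 1)) k₀)} (hX : Vty n I)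
    {q r e : ℕ} (he : 0 < e) (hS : Spn e I) (hq : 2 * r < q) (hnum : n * (e + 1) + e * (2 * r) ≤ e * (q + 1)) :
    ∃ Φ : MvPolynomial (Fin q × Fin (N + 1)) k₀, Φ ≠ 0 ∧
      ∀ (k : Type u) [Field k] [NumberField k] [Algebra k₀ k] (J : Ideal (MvPolynomial (Fin (N + 1)) k)), Vty 1 J →
      ∀ (S : Finset (Pl k)) (l : ℕ → Fin q → Fin (N + 1) → k)
      (x : ℕ → Fin (N + 1) → AlgebraicClosure k), (∀ a, aeval (fun p : Fin q × Fin (N + 1) => l a p.1 p.2) Φ ≠ 0) →
      (∀ a, OnX I (x a)) → (∀ a, OnX J (x a)) → ¬ BadS r S l x := by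
  classical
  obtain ⟨Φ, hΦ, hgeo⟩ := cv_geo (r := r) hX he hS hq.le hnum
  refine ⟨Φ, hΦ, ?_⟩
  intro k _ _ _ J hJ S l x hl hX' hJ' hb
  obtain ⟨φ, k', E, iF', iF, iA1, iA2, iA3, iT, γ, ξ, r', A, iT', ω, c, h, hφ, hr', hξ1, hξg, hξt, hsl, hsur, htr, hdat, hlξ, hI2⟩ :=
    arith_s (by omega) S l x hb
  have hT : Trf (fun a => x (φ a)) γ ξ := ⟨htr⟩
  let _ : Algebra k₀ E := ((algebraMap k E).comp (algebraMap k₀ k)).toAlgebra
  let _ : Algebra k₀ k' := ((algebraMap k k').comp (algebraMap k₀ k)).toAlgebra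
  have : IsScalarTower k₀ k E := IsScalarTower.of_algebraMap_eq fun _ => rfl
  have : IsScalarTower k₀ k k' := IsScalarTower.of_algebraMap_eq fun _ => rfl
  have : IsScalarTower k₀ k' E := IsScalarTower.of_algebraMap_eq fun c => by
    show algebraMap k E (algebraMap k₀ k c) = algebraMap k' E (algebraMap k k' (algebraMap k₀ k c))
    rw [← IsScalarTower.algebraMap_apply k k' E]
  have : CharZero k' := charZero_of_injective_algebraMap (algebraMap k k').injective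
  have hon : OnX I ξ := by
    intro g hg
    have h3 := (hT.pt (MvPolynomial.map (algebraMap k₀ k) g)).2 (Eventually.of_forall fun a => by
      rw [aeval_map_algebraMap]
      exact hX' _ g hg)
    rwa [aeval_map_algebraMap] at h3
  have honJ : OnX J ξ := fun g hg => (hT.pt g).2 (Eventually.of_forall fun a => hJ' _ g hg)
  have hl2 : aeval (fun p : Fin q × Fin (N + 1) => γ fun a => l (φ a) p.1 p.2) Φ ≠ 0 := by
    intro h0
    have h3 := (hT.slow (fun p : Fin q × Fin (N + 1) => fun a => l (φ a) p.1 p.2) (fun p => hsl p.1 p.2)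
      (MvPolynomial.map (algebraMap k₀ k) Φ)).1 (by rw [aeval_map_algebraMap]; exact h0)
    obtain ⟨a, ha⟩ := h3.exists
    rw [aeval_map_algebraMap] at ha
    exact hl (φ a) ha
  have hC : Crv (Submodule.span k' (Set.range ξ)) := crv_cv hJ ξ hξ1 hξg hξt honJ
  have : FiniteDimensional k' (Submodule.span k' (Set.range ξ)) := FiniteDimensional.span_of_finite k' (Set.finite_range ξ)
  have hLV : ∀ i, lv (fun j => γ fun a => l (φ a) i j) ξ ∈ Submodule.span k' (Set.range ξ) := by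
    intro i
    unfold lv
    refine Submodule.sum_mem _ fun j _ => ?_
    rw [← Algebra.smul_def]
    exact Submodule.smul_mem _ _ (Submodule.subset_span (Set.mem_range_self j))
  obtain ⟨p, M, hp, hM, hrel⟩ := curve_alg hC hdat (fun i => lv (fun j => γ fun a => l (φ a) i j) ξ) hLV hlξ hI2
  exact hgeo k' (fun i j => γ fun a => l (φ a) i j) hl2 E ξ hξ1 hC hon hlξ p M (by omega) hrel

/-- the curves -/
def Crvs (N : ℕ) (k : Type u) [Field k] : Type u := {J : Ideal (MvPolynomial (Fin (N + 1)) k) // Vty 1 J}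

/-- the points of `X` on the curve -/
def PtOn {k₀ : Type u} [Field k₀] {N : ℕ} (I : Ideal (MvPolynomial (Fin (N + 1)) k₀)) (q : ℕ) (k : Type u) [Field k] [NumberField k]
    [Algebra k₀ k] (J : Crvs N k) (_ : Fin q → Fin (N + 1) → k) (x : Fin (N + 1) → AlgebraicClosure k) : Prop :=
  OnX I x ∧ OnX J.1 x

theorem ineq_cv {k₀ : Type u} [Field k₀] [NumberField k₀] {N n : ℕ} {I : Ideal (MvPolynomial (Fin (N + 1)) k₀)} (hX : Vty n I)
    {q r e : ℕ} (he : 0 < e) (hS : Spn e I) (hq : 2 * r < q) (hnum : n * (e + 1) + e * (2 * r) ≤ e * (q + 1)) :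
    ∃ Φ : MvPolynomial (Fin q × Fin (N + 1)) k₀, Φ ≠ 0 ∧
      ∀ (k : Type u) [Field k] [NumberField k] [Algebra k₀ k] (J : Ideal (MvPolynomial (Fin (N + 1)) k)), Vty 1 J →
      ∀ (S : Finset (Pl k)), ∃ δ C : ℝ, 0 < δ ∧
      ∀ l : Fin q → Fin (N + 1) → k, aeval (fun p : Fin q × Fin (N + 1) => l p.1 p.2) Φ ≠ 0 →
      ∀ x : Fin (N + 1) → AlgebraicClosure k, (∃ j, x j = 1) → dg x ≤ r → (∀ i, val (l i) x ≠ 0) → OnX I x → OnX J x →
        ∑ ν ∈ S, ∑ i, lamN (l i) ν x ≤ (q - δ) * hgt x + C * (1 + ∑ i, Height.logHeight (l i)) := by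
  obtain ⟨Φ₀, h0, hseq⟩ := seq_cv hX he hS hq hnum
  obtain ⟨Φ, hΦ, hin⟩ := ineq_of_t (k₀ := k₀) (N := N) (q := q) (r := r) (Crvs N) (PtOn I q)
    (fun k _ _ _ J l x c _ h => h) Φ₀ h0
    (fun k _ _ _ J S l x hl hx => hseq k J.1 J.2 S l x hl (fun a => (hx a).1) fun a => (hx a).2)
  refine ⟨Φ, hΦ, fun k _ _ _ J hJ S => ?_⟩
  obtain ⟨δ, C, hδ, hin'⟩ := hin k ⟨J, hJ⟩ S
  exact ⟨δ, C, hδ, fun l hl x h1 h2 h3 h4 h5 => hin' l hl x h1 h2 h3 ⟨h4, h5⟩⟩

end Pool.Agent.CV
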