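import Pool.Agent.Helper42.CV.MDefs
import Pool.Agent.Helper6.TRI.SDefs

/-!
# CV: sequences whose proximity is at least `κ` times the height
-/

set_option autoImplicit false

namespace Pool.Agent.CV

open Module MvPolynomial NumberField Filter Pool.Agent.TRI
open Pool.Agent.Helper64.Vojta (Pl nv sn above)
open Pool.Agent.Chart (fld dg crd hgt val lam)

universe u

/-- as `BadS`, with the proximity at least `κ` times the height -/
structure BadK {k : Type u} [Field k] [NumberField k] {N q : ℕ} (κ : ℝ) (r : ℕ) (S : Finset (Pl k)) (l : ℕ → Fin q → Fin (N + 1) → k)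
    (x : ℕ → Fin (N + 1) → AlgebraicClosure k) : Prop where
  one : ∀ a, ∃ j, x a j = 1
  nrm : ∃ t : Fin q → k, (∀ i, t i ≠ 0) ∧ ∀ a i, ∃ j, l a i j = t i
  deg : ∀ a, dg (x a) ≤ r
  out : ∀ a i, val (l a i) (x a) ≠ 0
  big : ∀ a : ℕ, κ * hgt (x a) + a * (1 + ∑ i, Height.logHeight (l a i)) < ∑ ν ∈ S, ∑ i, lam (l a i) ν (x a)

end Pool.Agent.CV
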