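import Pool.Agent.Helper6.CV.IneqM
import Pool.Agent.Helper42.CV.KDefs

/-!
# CV, block K5: from sequences to the inequality, for `BadK`
-/

set_option autoImplicit false

namespace Pool.Agent.CV

open Module MvPolynomial NumberField Filter Pool.Agent.TRI
open Pool.Agent.Helper64.Vojta (Pl nv sn above)
open Pool.Agent.Chart (fld dg crd hgt val lam)

universe u

private theorem val_smul42k {k : Type u} [Field k] [NumberField k] {N : ℕ} (l : Fin (N + 1) → k) (c : k)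
    (x : Fin (N + 1) → AlgebraicClosure k) : val (fun j => c * l j) x = algebraMap k (fld x) c * val l x := by
  unfold val
  rw [Finset.mul_sum]
  exact Finset.sum_congr rfl fun j _ => by rw [map_mul, mul_assoc]

theorem ineq_of_k {k₀ : Type u} [Field k₀] [NumberField k₀] {N q r : ℕ} {Θ : Type} (κ : Θ → ℝ) (hκ : ∀ τ, 0 ≤ κ τ)
    (T : Θ → ∀ (k : Type u) [Field k], Type u) (ht : ∀ (τ : Θ) (k : Type u) [Field k] [NumberField k], T τ k → ℝ)
    (hht : ∀ (τ : Θ) (k : Type u) [Field k] [NumberField k] (t : T τ k), 0 ≤ ht τ k t)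
    (P : ∀ (τ : Θ) (k : Type u) [Field k] [NumberField k] [Algebra k₀ k], T τ k → (Fin q → Fin (N + 1) → k) →
      (Fin (N + 1) → AlgebraicClosure k) → Prop)
    (hP : ∀ (τ : Θ) (k : Type u) [Field k] [NumberField k] [Algebra k₀ k] (t : T τ k) (l : Fin q → Fin (N + 1) → k)
      (x : Fin (N + 1) → AlgebraicClosure k) (c : Fin q → k), (∀ i, c i ≠ 0) → P τ k t l x → P τ k t (fun i j => c i * l i j) x)
    (Φ₀ : MvPolynomial (Fin q × Fin (N + 1)) k₀) (h0 : Φ₀ ≠ 0)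
    (hno : ∀ (τ : Θ) (k : Type u) [Field k] [NumberField k] [Algebra k₀ k] (S : Finset (Pl k)) (t : ℕ → T τ k)
      (l : ℕ → Fin q → Fin (N + 1) → k) (x : ℕ → Fin (N + 1) → AlgebraicClosure k),
      (∀ a, aeval (fun p : Fin q × Fin (N + 1) => l a p.1 p.2) Φ₀ ≠ 0) → (∀ a, P τ k (t a) (l a) (x a)) →
      (∀ η : ℝ, 0 < η → ∀ᶠ a in atTop, ht τ k (t a) ≤ η * hgt (x a)) → ¬ BadK (κ τ) r S l x) :
    ∃ Φ : MvPolynomial (Fin q × Fin (N + 1)) k₀, Φ ≠ 0 ∧
      ∀ (τ : Θ) (k : Type u) [Field k] [NumberField k] [Algebra k₀ k] (S : Finset (Pl k)), ∃ C : ℝ,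
      ∀ (t : T τ k) (l : Fin q → Fin (N + 1) → k), aeval (fun p : Fin q × Fin (N + 1) => l p.1 p.2) Φ ≠ 0 →
      ∀ x : Fin (N + 1) → AlgebraicClosure k, (∃ j, x j = 1) → dg x ≤ r → (∀ i, val (l i) x ≠ 0) → P τ k t l x →
        ∑ ν ∈ S, ∑ i, lamN (l i) ν x ≤ κ τ * hgt x + C * (1 + ∑ i, Height.logHeight (l i) + ht τ k t) := by
  classical
  obtain ⟨Φ, T', hΦ, hT, hsc⟩ := scal Φ₀ h0
  refine ⟨Φ, hΦ, fun τ k _ _ _ S => ?_⟩
  by_contra hcon
  push Not at hcon
  choose tt l hl x hx1 hxr hxl hxP hbig using fun m : ℕ => hcon m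
  -- a coordinate of each form
  have hj : ∀ m i, ∃ j, l m i j ≠ 0 := by
    intro m i
    by_contra h
    push Not at h
    apply hxl m i
    unfold val
    exact Finset.sum_eq_zero fun j _ => by rw [h j, map_zero, zero_mul]
  choose J hJ using hj
  set c : ℕ → Fin q → k := fun m i => (l m i (J m i))⁻¹ with hc
  have hc0 : ∀ m i, c m i ≠ 0 := fun m i => inv_ne_zero (hJ m i)
  have ht' : ∀ m, ∃ t ∈ T', aeval (fun p : Fin q × Fin (N + 1) => (t p.1 : k) * (c m p.1 * l m p.1 p.2)) Φ₀ ≠ 0 := by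
    intro m
    have h1 := (hsc k (l m) (hl m)).1 (c m) (hc0 m)
    exact (hsc k (fun i j => c m i * l m i j) h1).2
  choose t htT ht0 using ht'
  -- pigeonhole
  obtain ⟨t₀, ht₀, hfr⟩ : ∃ t₀ ∈ T', ∃ᶠ m in atTop, t m = t₀ := by
    by_contra h
    push Not at h
    have h1 : ∀ t₀ ∈ T', ∀ᶠ m in atTop, t m ≠ t₀ := h
    have h2 : ∀ᶠ m in atTop, ∀ t₀ ∈ T', t m ≠ t₀ := by
      rw [Filter.eventually_all_finset]
      exact h1
    obtain ⟨m, hm⟩ := h2.exists
    exact hm (t m) (htT m) rfl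
  obtain ⟨ψ, hψ, hψt⟩ := Filter.extraction_of_frequently_atTop hfr
  have htk : ∀ i, (t₀ i : k) ≠ 0 := fun i => Nat.cast_ne_zero.2 (hT t₀ ht₀ i)
  choose B hB using fun i => lamN_le (N := N) S (t₀ i : k) (htk i)
  set B0 : ℝ := ∑ i, |B i| with hB0
  have hB00 : 0 ≤ B0 := Finset.sum_nonneg fun i _ => abs_nonneg _
  set C0 : ℝ := q * (finrank ℚ k * Real.log ((N + 1 + 1 : ℝ) ^ 2)) with hC0
  have hlog : 0 ≤ Real.log ((N + 1 + 1 : ℝ) ^ 2) := by
    apply Real.log_nonneg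
    have : (0 : ℝ) ≤ N := Nat.cast_nonneg _
    nlinarith
  have hC00 : 0 ≤ C0 := by positivity
  obtain ⟨K, hK⟩ := exists_nat_gt (1 + B0 + C0)
  set m : ℕ → ℕ := fun a => ψ (a + K) with hm
  have hma : ∀ a, a + K ≤ m a := fun a => hψ.le_apply
  have hht0 : ∀ m, 0 ≤ ht τ k (tt m) := fun m => hht τ k (tt m)
  set l' : ℕ → Fin q → Fin (N + 1) → k := fun a i j => (t₀ i : k) * (c (m a) i * l (m a) i j) with hl'
  have hl'' : ∀ a, l' a = fun i j => ((t₀ i : k) * c (m a) i) * l (m a) i j := by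
    intro a
    funext i j
    rw [hl', mul_assoc]
  have hd0 : ∀ a i, (t₀ i : k) * c (m a) i ≠ 0 := fun a i => mul_ne_zero (htk i) (hc0 _ i)
  have hL0 : ∀ m, (0 : ℝ) ≤ ∑ i, Height.logHeight (l m i) := fun m => Finset.sum_nonneg fun i _ => Height.logHeight_nonneg _
  have h8 : ∀ m, 0 ≤ hgt (x m) := by
    intro m
    unfold hgt
    exact div_nonneg (Height.logHeight_nonneg _) (Nat.cast_nonneg _)
  refine hno τ k S (fun a => tt (m a)) l' (fun a => x (m a)) ?_ ?_ ?_ ?_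
  · intro a
    have h1 := ht0 (m a)
    rw [hψt (a + K)] at h1
    exact h1
  · intro a
    rw [hl'']
    exact hP τ k (tt (m a)) (l (m a)) (x (m a)) (fun i => (t₀ i : k) * c (m a) i) (hd0 a) (hxP (m a))
  · -- the heights of the parameters
    intro η hη
    obtain ⟨A, hA⟩ := exists_nat_gt ((q : ℝ) / η)
    refine (Filter.eventually_ge_atTop A).mono fun a ha => ?_
    have h1 := hbig (m a)
    have h2 : ∑ ν ∈ S, ∑ i, lamN (l (m a) i) ν (x (m a)) ≤ ∑ i, Height.logHeight (l (m a) i) + q * hgt (x (m a)) + C0 := by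
      rw [Finset.sum_comm]
      refine (Finset.sum_le_sum fun i _ => lamN_sum_le S (l (m a) i) (x (m a)) (hx1 _) (hxl _ i)).trans (le_of_eq ?_)
      rw [Finset.sum_add_distrib, Finset.sum_add_distrib, Finset.sum_const, Finset.sum_const, Finset.card_univ, Fintype.card_fin,
        nsmul_eq_mul, nsmul_eq_mul]
    set Hh := hgt (x (m a))
    set L := ∑ i, Height.logHeight (l (m a) i)
    set Tt := ht τ k (tt (m a))
    have hL : 0 ≤ L := hL0 _
    have hTt : 0 ≤ Tt := hht0 _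
    have hH : 0 ≤ Hh := h8 _
    have h6 : (a : ℝ) + K ≤ m a := by exact_mod_cast hma a
    have haA : (A : ℝ) ≤ a := by exact_mod_cast ha
    have hKm : 1 + B0 + C0 < m a := by linarith [(Nat.cast_nonneg a : (0 : ℝ) ≤ a)]
    -- m (1 + L + T) < q H + L + C0
    have hκH : 0 ≤ κ τ * Hh := mul_nonneg (hκ τ) hH
    have h9 : (m a : ℝ) * (1 + L + Tt) < q * Hh + L + C0 := by linarith
    have hm1 : (1 : ℝ) ≤ m a := by linarith
    have hm0 : (0 : ℝ) < m a := by linarith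
    have h10 : L ≤ (m a : ℝ) * L := by nlinarith
    have h11 : (m a : ℝ) * Tt ≤ q * Hh := by nlinarith
    have h13 : (q : ℝ) ≤ η * m a := by
      have h14 : (q : ℝ) / η < m a := by linarith [(Nat.cast_nonneg K : (0 : ℝ) ≤ K)]
      rw [div_lt_iff₀ hη] at h14
      linarith
    have h15 := mul_le_mul_of_nonneg_right h13 hH
    have h16 : (m a : ℝ) * Tt ≤ m a * (η * Hh) := by
      have h17 : η * (m a : ℝ) * Hh = m a * (η * Hh) := by ring
      linarith
    exact le_of_mul_le_mul_left h16 hm0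
  have hval : ∀ a i, val (l' a i) (x (m a)) ≠ 0 := by
    intro a i
    rw [hl'']
    show val (fun j => ((t₀ i : k) * c (m a) i) * l (m a) i j) (x (m a)) ≠ 0
    rw [val_smul42k]
    exact mul_ne_zero ((map_ne_zero _).2 (hd0 a i)) (hxl _ i)
  have hnrm : ∀ a i, ∃ j, l' a i j = t₀ i := by
    intro a i
    refine ⟨J (m a) i, ?_⟩
    show (t₀ i : k) * ((l (m a) i (J (m a) i))⁻¹ * l (m a) i (J (m a) i)) = t₀ i
    rw [inv_mul_cancel₀ (hJ _ i), mul_one]
  have hht' : ∀ a i, Height.logHeight (l' a i) = Height.logHeight (l (m a) i) := by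
    intro a i
    rw [hl'']
    exact Height.logHeight_smul_eq_logHeight (l (m a) i) (hd0 a i)
  refine ⟨fun a => hx1 _, ⟨fun i => t₀ i, htk, hnrm⟩, fun a => hxr _, hval, fun a => ?_⟩
  have h1 := hbig (m a)
  have h2 : ∑ ν ∈ S, ∑ i, lamN (l (m a) i) ν (x (m a)) ≤ ∑ i, (Height.logHeight (l' a i) + B i) +
      ∑ ν ∈ S, ∑ i, lam (l' a i) ν (x (m a)) := by
    rw [Finset.sum_comm, Finset.sum_comm (s := S) (t := Finset.univ) (f := fun ν i => lam (l' a i) ν (x (m a))),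
      ← Finset.sum_add_distrib]
    refine Finset.sum_le_sum fun i _ => ?_
    refine le_trans (le_of_eq ?_) (hB i (l' a i) (hnrm a i) (x (m a)))
    refine Finset.sum_congr rfl fun ν _ => ?_
    rw [hl'']
    exact (lamN_smul (l (m a) i) _ (hd0 a i) ν (x (m a)) (hxl _ i)).symm
  rw [Finset.sum_add_distrib] at h2
  have h3 : ∑ i, B i ≤ B0 := Finset.sum_le_sum fun i _ => le_abs_self _
  have h4 : ∑ i, Height.logHeight (l' a i) = ∑ i, Height.logHeight (l (m a) i) := Finset.sum_congr rfl fun i _ => hht' a i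
  have h5 := hL0 (m a)
  have h6 : (a : ℝ) + K ≤ m a := by exact_mod_cast hma a
  have hT0 := hht0 (m a)
  rw [h4] at h2
  show κ τ * hgt (x (m a)) + a * (1 + ∑ i, Height.logHeight (l' a i)) < _
  rw [h4]
  set L := ∑ i, Height.logHeight (l (m a) i)
  have h9 : ((a : ℝ) + K) * (1 + L) ≤ m a * (1 + L + ht τ k (tt (m a))) := by
    have h10 : ((a : ℝ) + K) * (1 + L) ≤ m a * (1 + L) := mul_le_mul_of_nonneg_right h6 (by linarith)
    have h11 : (m a : ℝ) * (1 + L) ≤ m a * (1 + L + ht τ k (tt (m a))) :=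
      mul_le_mul_of_nonneg_left (by linarith) (Nat.cast_nonneg _)
    linarith
  have h12 : (1 + B0) * (1 + L) ≤ K * (1 + L) := mul_le_mul_of_nonneg_right (by linarith) (by linarith)
  have h13 : ((a : ℝ) + K) * (1 + L) = a * (1 + L) + K * (1 + L) := by ring
  have h14 : (1 + B0) * (1 + L) = 1 + B0 + L + B0 * L := by ring
  have h15 : 0 ≤ B0 * L := mul_nonneg hB00 h5
  linarith

end Pool.Agent.CV
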