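import Pool.Agent.Helper67.CV.ArithK
import Pool.Agent.Helper42.CV.IneqK
import Pool.Agent.Helper42.CV.CurveK
import Pool.Agent.Helper42.CV.GrowthB
import Pool.Agent.Helper64.CV.Slow
import Pool.Agent.Helper20.CV.CrvLin
import Pool.Agent.Helper42.CV.Geo
import Pool.Agent.Helper23.CV.Ver
import Pool.Agent.Helper29.TRI.VerAr
import Pool.Agent.Helper6.TRI.FinS

/-!
# CV: the inequality for the points of moving curves, with an explicit gain
-/

set_option autoImplicit false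

namespace Pool.Agent.CV

open Module MvPolynomial NumberField Filter Pool.Agent.TRI
open Pool.Agent.Helper64.Vojta (Pl nv sn above)
open Pool.Agent.Chart (fld dg crd hgt val lam)

universe u

private theorem fm_smul42k {k : Type u} [Field k] {N e : ℕ} (t : k) (c : Sym (Fin N) e → k) : fm (fun s => t * c s) = C t * fm c := by
  unfold fm
  rw [Finset.mul_sum]
  exact Finset.sum_congr rfl fun s _ => by rw [C_mul, mul_assoc]

private theorem span_smul42k {R : Type*} [CommRing R] {ι : Type*} (f g : ι → R) (h : ∀ j, ∃ u : R, IsUnit u ∧ f j = u * g j) :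
    Ideal.span (Set.range f) = Ideal.span (Set.range g) := by
  apply le_antisymm
  · rw [Ideal.span_le]
    rintro _ ⟨j, rfl⟩
    obtain ⟨u, hu, hj⟩ := h j
    rw [hj]
    exact Ideal.mul_mem_left _ _ (Ideal.subset_span ⟨j, rfl⟩)
  · rw [Ideal.span_le]
    rintro _ ⟨j, rfl⟩
    obtain ⟨u, ⟨u, rfl⟩, hj⟩ := h j
    have : g j = (u⁻¹ : Rˣ) * f j := by
      rw [hj, ← mul_assoc, Units.inv_mul, one_mul]
    rw [this]
    exact Ideal.mul_mem_left _ _ (Ideal.subset_span ⟨j, rfl⟩)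

private theorem cur_aux42k {k : Type u} [Field k] {N : ℕ} (J J' : Ideal (MvPolynomial (Fin (N + 1)) k)) (h : J = J') (m b : ℕ)
    (hb : finrank k ↥((homogeneousSubmodule (Fin (N + 1)) k m).map (Ideal.Quotient.mkₐ k J').toLinearMap) ≤ b) :
    finrank k ↥((homogeneousSubmodule (Fin (N + 1)) k m).map (Ideal.Quotient.mkₐ k J).toLinearMap) ≤ b := by
  subst h
  exact hb

private theorem cur_smul42k {k : Type u} [Field k] {N s e B B₂ : ℕ} (G : Fin s → Sym (Fin (N + 1)) e → k) (t : Fin s → k)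
    (ht : ∀ j, t j ≠ 0) (hG : CurB B B₂ G) : CurB B B₂ fun j c => t j * G j c := by
  intro m
  have h : Ideal.span (Set.range fun j => fm (fun c => t j * G j c)) = Ideal.span (Set.range fun j => fm (G j)) :=
    span_smul42k _ _ fun j => ⟨C (t j), (isUnit_iff_ne_zero.2 (ht j)).map C, fm_smul42k _ _⟩
  exact cur_aux42k _ _ h m _ (hG m)

private theorem sum_ext42k {R : Type*} [CommRing R] {q q₀ : ℕ} (j : Fin q₀ ↪ Fin q) (a : Fin q₀ → ℤ) (g : Fin q → R) (f : ℤ → R)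
    (f0 : f 0 = 0) : ∑ i, f (Function.extend j a 0 i) * g i = ∑ i, f (a i) * g (j i) := by
  classical
  have h1 : ∑ i ∈ Finset.univ.map j, f (Function.extend j a 0 i) * g i = ∑ i, f (Function.extend j a 0 i) * g i := by
    refine Finset.sum_subset (Finset.subset_univ _) fun i _ hi => ?_
    rw [Function.extend_apply', Pi.zero_apply, f0, zero_mul]
    rintro ⟨b, rfl⟩
    exact hi (Finset.mem_map_of_mem j (Finset.mem_univ b))
  rw [← h1, Finset.sum_map]
  exact Finset.sum_congr rfl fun i _ => by rw [j.injective.extend_apply]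

/-- no bad sequence on moving curves -/
theorem seq_k {k₀ : Type u} [Field k₀] [NumberField k₀] {N N' n q q₀ r d : ℕ} (hd : 1 ≤ d) (hq : q₀ ≤ q) (hq₀ : 2 * r ≤ q₀)
    (hnum : n * (d + 1) + d * (2 * r) ≤ d * (q₀ + 1)) (v : Fin (N' + 1) ≃ Sym (Fin (N + 1)) d)
    {I' : Ideal (MvPolynomial (Fin (N' + 1)) k₀)} (hX : Vty n I') (hS : Spn d I') :
    ∃ Φ : MvPolynomial (Fin q × Fin (N' + 1)) k₀, Φ ≠ 0 ∧
      ∀ (k : Type u) [Field k] [NumberField k] [Algebra k₀ k] (s e B B₂ : ℕ) (κ : ℝ) (S : Finset (Pl k))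
      (G : ℕ → Fin s → Sym (Fin (N + 1)) e → k) (l : ℕ → Fin q → Fin (N' + 1) → k) (y : ℕ → Fin (N + 1) → AlgebraicClosure k),
      0 < B → 0 < κ → (q : ℝ) - ((q : ℝ) + 1 - q₀) / (B * d) < κ →
      (∀ a, aeval (fun p : Fin q × Fin (N' + 1) => l a p.1 p.2) Φ ≠ 0) →
      (∀ a, OnX I' (ver v (y a))) → (∀ a, CurB B B₂ (G a)) → (∀ a j, aeval (y a) (fm (G a j)) = 0) →
      (∀ η : ℝ, 0 < η → ∀ᶠ a in atTop, ∑ j, Height.logHeight (G a j) ≤ η * hgt (ver v (y a))) →
      ¬ BadK κ r S l fun a => ver v (y a) := by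
  classical
  obtain ⟨Φ₀, hΦ₀, hgeo⟩ := cv_geo (r := r) hX hd hS hq₀ hnum
  refine ⟨∏ j : Fin q₀ ↪ Fin q, rename (fun p : Fin q₀ × Fin (N' + 1) => (j p.1, p.2)) Φ₀, ?_, ?_⟩
  · refine Finset.prod_ne_zero_iff.2 fun j _ h0 => hΦ₀ ?_
    apply rename_injective (fun p : Fin q₀ × Fin (N' + 1) => (j p.1, p.2))
    · rintro ⟨a, b⟩ ⟨a', b'⟩ hab
      rw [Prod.mk.injEq] at hab
      exact Prod.ext (j.injective hab.1) hab.2
    · rw [h0, map_zero]
  intro k _ _ _ s e B B₂ κ S G₀ l y hB hκ0 hκ hl hX' hG₀ hGy₀ hGh₀ hb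
  obtain ⟨φ, k', E, iF', iF, iA1, iA2, iA3, iT, γ, ξ, r', A, iT', ω, c, h, hφ, hr', hξ1, hξg, hξt, hsl, hsur, htr, hdat, hlξ, hI2⟩ :=
    arith_k hκ0 S l (fun a => ver v (y a)) hb
  have hT : Trf (fun a => ver v (y (φ a))) γ ξ := ⟨htr⟩
  let _ : Algebra k₀ E := ((algebraMap k E).comp (algebraMap k₀ k)).toAlgebra
  let _ : Algebra k₀ k' := ((algebraMap k k').comp (algebraMap k₀ k)).toAlgebra
  have : IsScalarTower k₀ k E := IsScalarTower.of_algebraMap_eq fun _ => rfl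
  have : IsScalarTower k₀ k k' := IsScalarTower.of_algebraMap_eq fun _ => rfl
  have : IsScalarTower k₀ k' E := IsScalarTower.of_algebraMap_eq fun c => by
    show algebraMap k E (algebraMap k₀ k c) = algebraMap k' E (algebraMap k k' (algebraMap k₀ k c))
    rw [← IsScalarTower.algebraMap_apply k k' E]
  have : CharZero k' := charZero_of_injective_algebraMap (algebraMap k k').injective
  have hon : OnX I' ξ := by
    intro g hg
    have h3 := (hT.pt (MvPolynomial.map (algebraMap k₀ k) g)).2 (Eventually.of_forall fun a => by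
      rw [aeval_map_algebraMap]
      exact hX' _ g hg)
    rwa [aeval_map_algebraMap] at h3
  have hl2 : ∀ j : Fin q₀ ↪ Fin q, aeval (fun p : Fin q₀ × Fin (N' + 1) => γ fun a => l (φ a) (j p.1) p.2) Φ₀ ≠ 0 := by
    intro j h0
    have h3 := (hT.slow (fun p : Fin q₀ × Fin (N' + 1) => fun a => l (φ a) (j p.1) p.2) (fun p => hsl (j p.1) p.2)
      (MvPolynomial.map (algebraMap k₀ k) Φ₀)).1 (by rw [aeval_map_algebraMap]; exact h0)
    obtain ⟨a, ha⟩ := h3.exists
    rw [aeval_map_algebraMap] at ha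
    apply hl (φ a)
    rw [map_prod]
    refine Finset.prod_eq_zero (Finset.mem_univ j) ?_
    rw [aeval_rename]
    exact ha
  -- the normalised forms
  have hn : ∀ a j, ∃ t : k, t ≠ 0 ∧ ((fun c => t * G₀ a j c) = 0 ∨ ∃ c, t * G₀ a j c = 1) := by
    intro a j
    by_cases h0 : G₀ a j = 0
    · exact ⟨1, one_ne_zero, Or.inl (by rw [h0]; funext c; simp)⟩
    · obtain ⟨c, hc⟩ := Function.ne_iff.1 h0
      exact ⟨(G₀ a j c)⁻¹, inv_ne_zero hc, Or.inr ⟨c, inv_mul_cancel₀ hc⟩⟩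
  choose t ht0 htn using hn
  obtain ⟨G, hG⟩ : ∃ G : ℕ → Fin s → Sym (Fin (N + 1)) e → k, G = fun a j c => t (φ a) j * G₀ (φ a) j c := ⟨_, rfl⟩
  have hGc : ∀ a, CurB B B₂ (G a) := fun a => by
    rw [hG]
    exact cur_smul42k _ _ (fun j => ht0 _ j) (hG₀ _)
  have hGy : ∀ a j, aeval (y (φ a)) (fm (G a j)) = 0 := fun a j => by
    rw [hG, show fm (fun c => t (φ a) j * G₀ (φ a) j c) = _ from fm_smul42k _ _, map_mul, hGy₀, mul_zero]
  have hGs : ∀ j c, SlowS (fun a => ver v (y (φ a))) fun a => G a j c := by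
    intro j c
    refine slow_coef (fun a => ver v (y (φ a))) (fun a => G a j) (fun η hη => ?_) (fun a => ?_) c
    · have h1 : ∀ᶠ a in atTop, ∑ j, Height.logHeight (G₀ (φ a) j) ≤ η * hgt (ver v (y (φ a))) :=
        (hφ.tendsto_atTop).eventually (hGh₀ η hη)
      have h2 : (hyperfilter ℕ : Filter ℕ) ≤ atTop := by
        rw [← Nat.cofinite_eq_atTop]
        exact Filter.hyperfilter_le_cofinite
      filter_upwards [h2 h1] with a ha
      refine le_trans ?_ ha
      have h3 : Height.logHeight (G a j) = Height.logHeight (G₀ (φ a) j) := by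
        rw [hG]
        exact Height.logHeight_smul_eq_logHeight (G₀ (φ a) j) (ht0 _ j)
      rw [h3]
      exact Finset.single_le_sum (f := fun j => Height.logHeight (G₀ (φ a) j)) (fun j _ => Height.logHeight_nonneg _) (Finset.mem_univ j)
    · rw [hG]
      exact htn _ j
  have hgr := growth_b v (fun a => y (φ a)) G hGc hGy hGs hT hsur
  have hC : Crv (Submodule.span k' (Set.range ξ)) := crv_lin (B := B * d + B₂) ξ hξ1 hξg hξt fun m => (hgr m).trans (by
    rw [Nat.mul_succ, Nat.add_mul, ← mul_assoc]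
    omega)
  have : FiniteDimensional k' (Submodule.span k' (Set.range ξ)) := FiniteDimensional.span_of_finite k' (Set.finite_range ξ)
  have hLV : ∀ i, lv (fun j => γ fun a => l (φ a) i j) ξ ∈ Submodule.span k' (Set.range ξ) := by
    intro i
    unfold lv
    refine Submodule.sum_mem _ fun j _ => ?_
    rw [← Algebra.smul_def]
    exact Submodule.smul_mem _ _ (Submodule.subset_span (Set.mem_range_self j))
  have hd0 : (0 : ℝ) < d := by exact_mod_cast hd
  have hB0 : (0 : ℝ) < B := by exact_mod_cast hB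
  obtain ⟨J, p, M, hJ, hp, hrel⟩ := curve_alg_k hC hdat (fun i => lv (fun j => γ fun a => l (φ a) i j) ξ) hLV hlξ
    (e := B * d) (t := q + 1 - q₀) ⟨B₂, fun m => (hgr m).trans (le_of_eq (by ring))⟩ (by
    have h1 : ((q + 1 - q₀ : ℕ) : ℝ) = (q : ℝ) + 1 - q₀ := by
      rw [Nat.cast_sub (by omega)]
      push_cast
      ring
    have h2 : (0 : ℝ) < B * d := mul_pos hB0 hd0
    have h3 : ((q : ℝ) * (B * d) - ((q : ℝ) + 1 - q₀)) < (B * d) * κ := by
      have h4 := mul_lt_mul_of_pos_left hκ h2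
      have h5 : (B * d : ℝ) * ((q : ℝ) - ((q : ℝ) + 1 - q₀) / (B * d)) = (q : ℝ) * (B * d) - ((q : ℝ) + 1 - q₀) := by
        field_simp
      rwa [h5] at h4
    have h6 := mul_lt_mul_of_pos_right h3 hdat.h0
    have h7 := mul_le_mul_of_nonneg_left hI2 h2.le
    rw [h1]
    push_cast
    linarith)
  obtain ⟨J', hJ', hJc⟩ := Finset.exists_subset_card_eq (s := J) (n := q₀) (by omega)
  set j : Fin q₀ ↪ Fin q := (J'.orderEmbOfFin hJc).toEmbedding with hj
  have hjJ : ∀ i, j i ∈ J := fun i => hJ' (Finset.orderEmbOfFin_mem J' hJc i)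
  refine hgeo k' (fun i b => γ fun a => l (φ a) (j i) b) (hl2 j) E ξ hξ1 hC hon (fun i => hlξ (j i)) p (fun s i => M s (j i))
    (hp.trans (by omega)) ?_
  intro a ha
  obtain ⟨h1, h2⟩ := hrel (Function.extend j a 0) (fun i hi => by
    rw [Function.extend_apply', Pi.zero_apply]
    rintro ⟨b, rfl⟩
    exact hi (hjJ b)) (fun s => by
    rw [sum_ext42k j a (fun i => (M s i : ℤ)) (fun z => z) rfl]
    exact ha s)
  refine ⟨?_, ?_⟩
  · have h3 := sum_ext42k j a (fun _ => (1 : ℤ)) (fun z => z) rfl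
    simp only [mul_one] at h3
    rw [← h3]
    exact h1
  · have h4 : ∏ i, lv (fun b => γ fun a => l (φ a) i b) ξ ^ (Function.extend j a 0 i) = wv (fun i b => γ fun a => l (φ a) (j i) b) ξ a := by
      unfold wv
      have h5 : ∏ i ∈ Finset.univ.map j, lv (fun b => γ fun a => l (φ a) i b) ξ ^ (Function.extend j a 0 i) =
          ∏ i, lv (fun b => γ fun a => l (φ a) i b) ξ ^ (Function.extend j a 0 i) := by
        refine Finset.prod_subset (Finset.subset_univ _) fun i _ hi => ?_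
        rw [Function.extend_apply', Pi.zero_apply, zpow_zero]
        rintro ⟨b, rfl⟩
        exact hi (Finset.mem_map_of_mem j (Finset.mem_univ b))
      rw [← h5, Finset.prod_map]
      exact Finset.prod_congr rfl fun i _ => by rw [j.injective.extend_apply]
    rw [← h4]
    exact h2

/-- the curves -/
def CrvB (N : ℕ) (τ : ℕ × ℕ × ℕ × ℕ) (k : Type u) [Field k] : Type u :=
  {G : Fin τ.1 → Sym (Fin (N + 1)) τ.2.1 → k // CurB τ.2.2.1 τ.2.2.2 G}

/-- their heights -/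
noncomputable def CrvHB (N : ℕ) (τ : ℕ × ℕ × ℕ × ℕ) (k : Type u) [Field k] [NumberField k] (G : CrvB N τ k) : ℝ :=
  ∑ j, Height.logHeight (G.1 j)

/-- the points of `X` on the curve -/
def PtB {k₀ : Type u} [Field k₀] {N N' d : ℕ} (I' : Ideal (MvPolynomial (Fin (N' + 1)) k₀)) (v : Fin (N' + 1) ≃ Sym (Fin (N + 1)) d)
    (q : ℕ) (τ : ℕ × ℕ × ℕ × ℕ) (k : Type u) [Field k] [NumberField k] [Algebra k₀ k] (G : CrvB N τ k) (_ : Fin q → Fin (N' + 1) → k)
    (x : Fin (N' + 1) → AlgebraicClosure k) : Prop :=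
  OnX I' x ∧ ∃ y : Fin (N + 1) → AlgebraicClosure k, x = ver v y ∧ ∀ j, aeval y (fm (G.1 j)) = 0

/-- points of moving curves, with an explicit gain -/
theorem out_k {k₀ : Type u} [Field k₀] [NumberField k₀] {N n q q₀ r d : ℕ} (hd : 1 ≤ d) (hq : q₀ ≤ q) (hq₀ : 2 * r < q₀)
    (hnum : n * (d + 1) + d * (2 * r) ≤ d * (q₀ + 1)) {I : Ideal (MvPolynomial (Fin (N + 1)) k₀)} (hX : Vty n I) :
    ∃ Φ : MvPolynomial (Fin q × Sym (Fin (N + 1)) d) k₀, Φ ≠ 0 ∧
      ∀ (k : Type u) [Field k] [NumberField k] [Algebra k₀ k] (S : Finset (Pl k)) (s e B B₂ : ℕ) (ε : ℝ), 0 < B → 0 < ε → ∃ C : ℝ,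
      ∀ g : Fin q → Sym (Fin (N + 1)) d → k, aeval (fun p : Fin q × Sym (Fin (N + 1)) d => g p.1 p.2) Φ ≠ 0 →
      ∀ G : Fin s → Sym (Fin (N + 1)) e → k, CurB B B₂ G →
      ∀ x : Fin (N + 1) → AlgebraicClosure k, (∃ j, x j = 1) → OnX I x → (∀ j, aeval x (fm (G j)) = 0) → dg x ≤ r →
        (∀ i, valS (g i) x ≠ 0) → ∑ ν ∈ S, ∑ i, (Real.log (⨆ s, nv ν (g i s)) + lamS (g i) ν x) ≤
          (q * d - ((q : ℝ) + 1 - q₀) / B + ε) * hgt x + C * (1 + ∑ i, Height.logHeight (g i) + ∑ j, Height.logHeight (G j)) := by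
  obtain ⟨N', v, hver⟩ := ver_cv (k₀ := k₀) (N := N) hd
  obtain ⟨I', hV, hSpn, hon⟩ := hver k₀ I
  obtain ⟨Φ₀, h0, hseq⟩ := seq_k hd hq hq₀.le hnum v (hV n hX) hSpn
  obtain ⟨Φ, hΦ, hfin⟩ := ineq_of_k (k₀ := k₀) (N := N') (q := q) (r := r)
    (Θ := {τ : (ℕ × ℕ × ℕ × ℕ) × ℝ // 0 < τ.1.2.2.1 ∧ 0 < τ.2 ∧ (q : ℝ) - ((q : ℝ) + 1 - q₀) / (τ.1.2.2.1 * d) < τ.2})
    (fun τ => τ.1.2) (fun τ => τ.2.2.1.le) (fun τ => CrvB N τ.1.1) (fun τ => CrvHB N τ.1.1)
    (fun τ k _ _ t => Finset.sum_nonneg fun j _ => Height.logHeight_nonneg _) (fun τ => PtB I' v q τ.1.1)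
    (fun τ k _ _ _ t l x c _ h => h) Φ₀ h0
    (fun τ k _ _ _ S t l x hl hP hh hb => by
      choose h1 y hy hG using hP
      obtain rfl : x = fun a => ver v (y a) := funext hy
      exact hseq k τ.1.1.1 τ.1.1.2.1 τ.1.1.2.2.1 τ.1.1.2.2.2 τ.1.2 S (fun a => (t a).1) l y τ.2.1 τ.2.2.1 τ.2.2.2 hl h1 (fun a => (t a).2) hG hh hb)
  refine ⟨rename (fun p : Fin q × Fin (N' + 1) => (p.1, v p.2)) Φ, ?_, ?_⟩
  · intro h0
    apply hΦ
    apply rename_injective (fun p : Fin q × Fin (N' + 1) => (p.1, v p.2))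
    · rintro ⟨a, b⟩ ⟨a', b'⟩ hab
      rw [Prod.mk.injEq] at hab
      exact Prod.ext hab.1 (v.injective hab.2)
    · rw [h0, map_zero]
  · intro k _ _ _ S s e B B₂ ε hB hε
    have hd0 : (0 : ℝ) < d := by exact_mod_cast hd
    have hB0 : (0 : ℝ) < B := by exact_mod_cast hB
    have hκ : (q : ℝ) - ((q : ℝ) + 1 - q₀) / (B * d) < (q : ℝ) - ((q : ℝ) + 1 - q₀) / (B * d) + ε / d := by
      have := div_pos hε hd0
      linarith
    have hκ0 : 0 < (q : ℝ) - ((q : ℝ) + 1 - q₀) / (B * d) + ε / d := by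
      have h1 := div_pos hε hd0
      have h2 : ((q : ℝ) + 1 - q₀) / (B * d) ≤ q := by
        rw [div_le_iff₀ (mul_pos hB0 hd0)]
        have h3 : (1 : ℝ) ≤ B * d := by
          have : 1 ≤ B * d := Nat.mul_pos hB hd
          exact_mod_cast this
        have h4 : (1 : ℝ) ≤ q₀ := by
          have : 1 ≤ q₀ := by omega
          exact_mod_cast this
        have h5 : (0 : ℝ) ≤ q := Nat.cast_nonneg _
        nlinarith
      linarith
    obtain ⟨C, hin⟩ := hfin ⟨((s, e, B, B₂), (q : ℝ) - ((q : ℝ) + 1 - q₀) / (B * d) + ε / d), hB, hκ0, hκ⟩ k S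
    refine ⟨C, fun g hg G hG x h1 h2 h5' h3 h4 => ?_⟩
    rw [aeval_rename] at hg
    obtain ⟨a1, a2, a3, a4⟩ := ver_ar (k := k) hd v x h1
    have h5 := hin ⟨G, hG⟩ (fun i j => g i (v j)) hg (ver v x) a1 (a2.le.trans h3) (fun i hi => h4 i (((a4 (g i)).1).1 hi))
      ⟨hon _ x h2, x, rfl, h5'⟩
    have h6 : ∑ ν ∈ S, ∑ i, lamN (fun j => g i (v j)) ν (ver v x) =
        ∑ ν ∈ S, ∑ i, (Real.log (⨆ s, nv ν (g i s)) + lamS (g i) ν x) := by
      refine Finset.sum_congr rfl fun ν _ => Finset.sum_congr rfl fun i _ => ?_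
      unfold lamN
      rw [(a4 (g i)).2 ν, v.iSup_comp (g := fun s => nv ν (g i s))]
    have h7 : ∑ i, Height.logHeight (fun j => g i (v j)) = ∑ i, Height.logHeight (g i) :=
      Finset.sum_congr rfl fun i _ => Height.logHeight_comp_equiv v (g i)
    have h8 : CrvHB N (s, e, B, B₂) k ⟨G, hG⟩ = ∑ j, Height.logHeight (G j) := rfl
    rw [h6, h7, h8, a3] at h5
    refine h5.trans (le_of_eq ?_)
    field_simp

end Pool.Agent.CV
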