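import Pool.Agent.Helper42.CV.MDefs

/-!
# CV: a line is given by `n - 1` linear forms
-/

set_option autoImplicit false

namespace Pool.Agent.CV

open Module MvPolynomial Matrix Pointwise

universe u

/-- the linear form with the coefficients `m` -/
private noncomputable def Lm42 {k : Type u} [Field k] {n : ℕ} : (Fin (n + 1) → k) →ₗ[k] MvPolynomial (Fin (n + 1)) k where
  toFun m := ∑ i, C (m i) * X i
  map_add' m m' := by
    simp only [Pi.add_apply, C_add, add_mul, Finset.sum_add_distrib]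
  map_smul' c m := by
    simp only [Pi.smul_apply, smul_eq_mul, C_mul, mul_assoc, RingHom.id_apply]
    rw [← Finset.mul_sum, MvPolynomial.smul_eq_C_mul]

/-- the two values of a linear form -/
private def Am42 {k : Type u} [Field k] {n : ℕ} (P₁ P₂ : Fin (n + 1) → k) : (Fin (n + 1) → k) →ₗ[k] k × k where
  toFun m := (m ⬝ᵥ P₁, m ⬝ᵥ P₂)
  map_add' m m' := by
    rw [add_dotProduct, add_dotProduct]
    rfl
  map_smul' c m := by
    rw [smul_dotProduct, smul_dotProduct]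
    rfl

private theorem pow_pair42 {R : Type*} [CommRing R] (a b : R) (m : ℕ) : ∀ x ∈ ({a, b} : Set R) ^ m, ∃ i : Fin (m + 1), x = a ^ (i : ℕ) * b ^ (m - i) := by
  induction m with
  | zero =>
    intro x hx
    rw [pow_zero, Set.mem_one] at hx
    exact ⟨0, by simp [hx]⟩
  | succ m ih =>
    intro x hx
    rw [pow_succ, Set.mem_mul] at hx
    obtain ⟨y, hy, z, hz, rfl⟩ := hx
    obtain ⟨i, rfl⟩ := ih y hy
    have hi := i.2
    rcases hz with rfl | hz
    · refine ⟨⟨i + 1, by omega⟩, ?_⟩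
      show z ^ (i : ℕ) * b ^ (m - i) * z = z ^ ((i : ℕ) + 1) * b ^ (m + 1 - (i + 1))
      rw [Nat.add_sub_add_right]
      ring
    · rw [Set.mem_singleton_iff] at hz
      subst hz
      refine ⟨⟨i, by omega⟩, ?_⟩
      show a ^ (i : ℕ) * z ^ (m - i) * z = a ^ (i : ℕ) * z ^ (m + 1 - i)
      rw [Nat.succ_sub (by omega), pow_succ]
      ring

/-- the line through two points -/
theorem cur_line {k : Type u} [Field k] {n : ℕ} (P₁ P₂ l₁ l₂ : Fin (n + 1) → k)
    (h : l₁ ⬝ᵥ P₂ = 0 ∧ l₂ ⬝ᵥ P₁ = 0 ∧ l₁ ⬝ᵥ P₁ ≠ 0 ∧ l₂ ⬝ᵥ P₂ ≠ 0) :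
    ∃ G : Fin (n - 1) → Sym (Fin (n + 1)) 1 → k, Cur 1 G ∧
      ∀ j, (fun i => G j (Sym.oneEquiv i)) ⬝ᵥ P₁ = 0 ∧ (fun i => G j (Sym.oneEquiv i)) ⬝ᵥ P₂ = 0 := by
  classical
  obtain ⟨h12, h21, h11, h22⟩ := h
  have hsurj : LinearMap.range (Am42 P₁ P₂) = ⊤ := by
    rw [LinearMap.range_eq_top]
    rintro ⟨a, b⟩
    refine ⟨(a / (l₁ ⬝ᵥ P₁)) • l₁ + (b / (l₂ ⬝ᵥ P₂)) • l₂, ?_⟩
    show (_ ⬝ᵥ P₁, _ ⬝ᵥ P₂) = _
    rw [add_dotProduct, add_dotProduct, smul_dotProduct, smul_dotProduct, smul_dotProduct, smul_dotProduct, h12, h21,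
      smul_zero, smul_zero, add_zero, zero_add, smul_eq_mul, smul_eq_mul, div_mul_cancel₀ _ h11, div_mul_cancel₀ _ h22]
  have hker : finrank k (LinearMap.ker (Am42 P₁ P₂)) = n - 1 := by
    have h1 := LinearMap.finrank_range_add_finrank_ker (Am42 P₁ P₂)
    rw [hsurj, finrank_top, Module.finrank_prod, Module.finrank_self, Module.finrank_fintype_fun_eq_card, Fintype.card_fin] at h1
    omega
  let b := Module.finBasisOfFinrankEq k (LinearMap.ker (Am42 P₁ P₂)) hker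
  let G : Fin (n - 1) → Sym (Fin (n + 1)) 1 → k := fun j s => (b j : Fin (n + 1) → k) (Sym.oneEquiv.symm s)
  have hG : ∀ j i, G j (Sym.oneEquiv i) = (b j : Fin (n + 1) → k) i := by
    intro j i
    show (b j : Fin (n + 1) → k) (Sym.oneEquiv.symm (Sym.oneEquiv i)) = _
    rw [Equiv.symm_apply_apply]
  have hfm : ∀ j, fm (G j) = Lm42 (b j : Fin (n + 1) → k) := by
    intro j
    unfold fm
    rw [← Equiv.sum_comp (Sym.oneEquiv (α := Fin (n + 1)))]
    refine Finset.sum_congr rfl fun i _ => ?_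
    rw [hG]
    congr 1
    show (Multiset.map X ({i} : Multiset (Fin (n + 1)))).prod = _
    rw [Multiset.map_singleton, Multiset.prod_singleton]
  set J := Ideal.span (Set.range fun j => fm (G j)) with hJ
  have hkJ : ∀ m, m ∈ LinearMap.ker (Am42 P₁ P₂) → Lm42 m ∈ J := by
    intro m hm
    have h1 : (⟨m, hm⟩ : LinearMap.ker (Am42 P₁ P₂)) = ∑ j, b.repr ⟨m, hm⟩ j • b j := (b.sum_repr _).symm
    have h2 : m = ∑ j, b.repr ⟨m, hm⟩ j • (b j : Fin (n + 1) → k) := by
      have h3 := congrArg (Submodule.subtype _) h1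
      rw [map_sum] at h3
      exact h3
    rw [h2, map_sum]
    refine Ideal.sum_mem _ fun j _ => ?_
    rw [map_smul, ← hfm, MvPolynomial.smul_eq_C_mul]
    exact Ideal.mul_mem_left _ _ (Ideal.subset_span ⟨j, rfl⟩)
  obtain ⟨m₁, e11, e12⟩ : ∃ m₁ : Fin (n + 1) → k, m₁ ⬝ᵥ P₁ = 1 ∧ m₁ ⬝ᵥ P₂ = 0 :=
    ⟨(l₁ ⬝ᵥ P₁)⁻¹ • l₁, by rw [smul_dotProduct, smul_eq_mul, inv_mul_cancel₀ h11], by rw [smul_dotProduct, h12, smul_zero]⟩
  obtain ⟨m₂, e21, e22⟩ : ∃ m₂ : Fin (n + 1) → k, m₂ ⬝ᵥ P₁ = 0 ∧ m₂ ⬝ᵥ P₂ = 1 :=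
    ⟨(l₂ ⬝ᵥ P₂)⁻¹ • l₂, by rw [smul_dotProduct, h21, smul_zero], by rw [smul_dotProduct, smul_eq_mul, inv_mul_cancel₀ h22]⟩
  refine ⟨G, fun m => ?_, fun j => ?_⟩
  · set π := (Ideal.Quotient.mkₐ k J).toLinearMap with hπ
    set a₁ := Ideal.Quotient.mkₐ k J (Lm42 m₁) with ha₁
    set a₂ := Ideal.Quotient.mkₐ k J (Lm42 m₂) with ha₂
    have h1 : (homogeneousSubmodule (Fin (n + 1)) k 1).map π ≤ Submodule.span k {a₁, a₂} := by
      rw [homogeneousSubmodule_one_eq_span_X, Submodule.map_span, Submodule.span_le]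
      rintro _ ⟨_, ⟨i, rfl⟩, rfl⟩
      have h2 : Lm42 (Pi.single i 1 : Fin (n + 1) → k) = X i := by
        show ∑ j, C ((Pi.single i 1 : Fin (n + 1) → k) j) * X j = _
        rw [Finset.sum_eq_single i]
        · rw [Pi.single_eq_same, C_1, one_mul]
        · intro j _ hj
          rw [Pi.single_eq_of_ne hj, C_0, zero_mul]
        · intro hi
          exact absurd (Finset.mem_univ i) hi
      have h3 : (Pi.single i 1 : Fin (n + 1) → k) - (P₁ i • m₁ + P₂ i • m₂) ∈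
          LinearMap.ker (Am42 P₁ P₂) := by
        rw [LinearMap.mem_ker]
        show (_ ⬝ᵥ P₁, _ ⬝ᵥ P₂) = _
        rw [sub_dotProduct, sub_dotProduct, add_dotProduct, add_dotProduct]
        simp only [smul_dotProduct, smul_eq_mul, single_one_dotProduct, e11, e12, e21, e22, mul_zero, mul_one, add_zero, zero_add,
          sub_self]
        rfl
      have h4 := hkJ _ h3
      rw [map_sub, h2, map_add, map_smul, map_smul] at h4
      have h5 : π (X i) = P₁ i • a₁ + P₂ i • a₂ := by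
        have h6 : Ideal.Quotient.mkₐ k J (X i) = Ideal.Quotient.mkₐ k J (P₁ i • Lm42 m₁ + P₂ i • Lm42 m₂) := by
          show Ideal.Quotient.mk J _ = Ideal.Quotient.mk J _
          rw [Ideal.Quotient.eq]
          exact h4
        show Ideal.Quotient.mkₐ k J (X i) = _
        rw [h6, map_add, map_smul, map_smul]
      show π (X i) ∈ Submodule.span k {a₁, a₂}
      rw [h5]
      exact add_mem (Submodule.smul_mem _ _ (Submodule.subset_span (by simp))) (Submodule.smul_mem _ _ (Submodule.subset_span (by simp)))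
    have h2 : (homogeneousSubmodule (Fin (n + 1)) k m).map π ≤ Submodule.span k (Set.range fun i : Fin (m + 1) => a₁ ^ (i : ℕ) * a₂ ^ (m - i)) := by
      rw [← homogeneousSubmodule_one_pow, hπ, Submodule.map_pow]
      refine (pow_le_pow_left' h1 m).trans ?_
      rw [Submodule.span_pow, Submodule.span_le]
      intro x hx
      obtain ⟨i, rfl⟩ := pow_pair42 a₁ a₂ m x hx
      exact Submodule.subset_span ⟨i, rfl⟩
    have hfd : FiniteDimensional k (Submodule.span k (Set.range fun i : Fin (m + 1) => a₁ ^ (i : ℕ) * a₂ ^ (m - i))) :=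
      FiniteDimensional.span_of_finite k (Set.finite_range _)
    refine (Submodule.finrank_mono h2).trans ?_
    refine (finrank_range_le_card (R := k) (fun i : Fin (m + 1) => a₁ ^ (i : ℕ) * a₂ ^ (m - i))).trans ?_
    rw [Fintype.card_fin, one_mul]
  · have h1 := (b j).2
    rw [LinearMap.mem_ker] at h1
    have h2 : ((b j : Fin (n + 1) → k) ⬝ᵥ P₁, (b j : Fin (n + 1) → k) ⬝ᵥ P₂) = (0, 0) := h1
    have h3 : (fun i => G j (Sym.oneEquiv i)) = (b j : Fin (n + 1) → k) := funext fun i => hG j i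
    rw [h3]
    exact ⟨congrArg Prod.fst h2, congrArg Prod.snd h2⟩

end Pool.Agent.CV
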