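import Pool.Agent.Helper6.CV.IneqM
import Pool.Agent.Helper64.CV.Slow
import Pool.Agent.Helper31.CV.Growth
import Pool.Agent.Helper20.CV.CrvLin
import Pool.Agent.Helper42.CV.Geo
import Pool.Agent.Helper23.CV.Ver
import Pool.Agent.Helper29.TRI.VerAr
import Pool.Agent.Helper6.TRI.FinS

/-!
# CV: the inequality for the points of moving curves
-/

set_option autoImplicit false

namespace Pool.Agent.CV

open Module MvPolynomial NumberField Filter Pool.Agent.TRI
open Pool.Agent.Helper64.Vojta (Pl nv sn above)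
open Pool.Agent.Chart (fld dg crd hgt val lam)

universe u

private theorem fm_smul42 {k : Type u} [Field k] {N e : ℕ} (t : k) (c : Sym (Fin N) e → k) : fm (fun s => t * c s) = C t * fm c := by
  unfold fm
  rw [Finset.mul_sum]
  exact Finset.sum_congr rfl fun s _ => by rw [C_mul, mul_assoc]

private theorem span_smul42 {R : Type*} [CommRing R] {ι : Type*} (f g : ι → R) (h : ∀ j, ∃ u : R, IsUnit u ∧ f j = u * g j) :
    Ideal.span (Set.range f) = Ideal.span (Set.range g) := by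
  apply le_antisymm
  · rw [Ideal.span_le]
    rintro _ ⟨j, rfl⟩
    obtain ⟨u, hu, hj⟩ := h j
    rw [hj]
    exact Ideal.mul_mem_left _ _ (Ideal.subset_span ⟨j, rfl⟩)
  · rw [Ideal.span_le]
    rintro _ ⟨j, rfl⟩
    obtain ⟨u, ⟨u, rfl⟩, hj⟩ := h j
    have : g j = (u⁻¹ : Rˣ) * f j := by
      rw [hj, ← mul_assoc, Units.inv_mul, one_mul]
    rw [this]
    exact Ideal.mul_mem_left _ _ (Ideal.subset_span ⟨j, rfl⟩)

private theorem cur_aux42 {k : Type u} [Field k] {N : ℕ} (J J' : Ideal (MvPolynomial (Fin (N + 1)) k)) (h : J = J') (m b : ℕ)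
    (hb : finrank k ↥((homogeneousSubmodule (Fin (N + 1)) k m).map (Ideal.Quotient.mkₐ k J').toLinearMap) ≤ b) :
    finrank k ↥((homogeneousSubmodule (Fin (N + 1)) k m).map (Ideal.Quotient.mkₐ k J).toLinearMap) ≤ b := by
  subst h
  exact hb

private theorem cur_smul42 {k : Type u} [Field k] {N s e B : ℕ} (G : Fin s → Sym (Fin (N + 1)) e → k) (t : Fin s → k)
    (ht : ∀ j, t j ≠ 0) (hG : Cur B G) : Cur B fun j c => t j * G j c := by
  intro m
  have h : Ideal.span (Set.range fun j => fm (fun c => t j * G j c)) = Ideal.span (Set.range fun j => fm (G j)) :=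
    span_smul42 _ _ fun j => ⟨C (t j), (isUnit_iff_ne_zero.2 (ht j)).map C, fm_smul42 _ _⟩
  exact cur_aux42 _ _ h m _ (hG m)

/-- no bad sequence on moving curves -/
theorem seq_m {k₀ : Type u} [Field k₀] [NumberField k₀] {N N' n q r d : ℕ} (hd : 1 ≤ d) (hq : 2 * r < q)
    (hnum : n * (d + 1) + d * (2 * r) ≤ d * (q + 1)) (v : Fin (N' + 1) ≃ Sym (Fin (N + 1)) d)
    {I' : Ideal (MvPolynomial (Fin (N' + 1)) k₀)} (hX : Vty n I') (hS : Spn d I') :
    ∃ Φ : MvPolynomial (Fin q × Fin (N' + 1)) k₀, Φ ≠ 0 ∧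
      ∀ (k : Type u) [Field k] [NumberField k] [Algebra k₀ k] (s e B : ℕ) (S : Finset (Pl k))
      (G : ℕ → Fin s → Sym (Fin (N + 1)) e → k) (l : ℕ → Fin q → Fin (N' + 1) → k) (y : ℕ → Fin (N + 1) → AlgebraicClosure k),
      (∀ a, aeval (fun p : Fin q × Fin (N' + 1) => l a p.1 p.2) Φ ≠ 0) →
      (∀ a, OnX I' (ver v (y a))) → (∀ a, Cur B (G a)) → (∀ a j, aeval (y a) (fm (G a j)) = 0) →
      (∀ η : ℝ, 0 < η → ∀ᶠ a in atTop, ∑ j, Height.logHeight (G a j) ≤ η * hgt (ver v (y a))) → ¬ BadS r S l fun a => ver v (y a) := by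
  classical
  obtain ⟨Φ, hΦ, hgeo⟩ := cv_geo (r := r) hX hd hS hq.le hnum
  refine ⟨Φ, hΦ, ?_⟩
  intro k _ _ _ s e B S G₀ l y hl hX' hG₀ hGy₀ hGh₀ hb
  obtain ⟨φ, k', E, iF', iF, iA1, iA2, iA3, iT, γ, ξ, r', A, iT', ω, c, h, hφ, hr', hξ1, hξg, hξt, hsl, hsur, htr, hdat, hlξ, hI2⟩ :=
    arith_s (by omega) S l (fun a => ver v (y a)) hb
  have hT : Trf (fun a => ver v (y (φ a))) γ ξ := ⟨htr⟩
  let _ : Algebra k₀ E := ((algebraMap k E).comp (algebraMap k₀ k)).toAlgebra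
  let _ : Algebra k₀ k' := ((algebraMap k k').comp (algebraMap k₀ k)).toAlgebra
  have : IsScalarTower k₀ k E := IsScalarTower.of_algebraMap_eq fun _ => rfl
  have : IsScalarTower k₀ k k' := IsScalarTower.of_algebraMap_eq fun _ => rfl
  have : IsScalarTower k₀ k' E := IsScalarTower.of_algebraMap_eq fun c => by
    show algebraMap k E (algebraMap k₀ k c) = algebraMap k' E (algebraMap k k' (algebraMap k₀ k c))
    rw [← IsScalarTower.algebraMap_apply k k' E]
  have : CharZero k' := charZero_of_injective_algebraMap (algebraMap k k').injective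
  have hon : OnX I' ξ := by
    intro g hg
    have h3 := (hT.pt (MvPolynomial.map (algebraMap k₀ k) g)).2 (Eventually.of_forall fun a => by
      rw [aeval_map_algebraMap]
      exact hX' _ g hg)
    rwa [aeval_map_algebraMap] at h3
  have hl2 : aeval (fun p : Fin q × Fin (N' + 1) => γ fun a => l (φ a) p.1 p.2) Φ ≠ 0 := by
    intro h0
    have h3 := (hT.slow (fun p : Fin q × Fin (N' + 1) => fun a => l (φ a) p.1 p.2) (fun p => hsl p.1 p.2)
      (MvPolynomial.map (algebraMap k₀ k) Φ)).1 (by rw [aeval_map_algebraMap]; exact h0)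
    obtain ⟨a, ha⟩ := h3.exists
    rw [aeval_map_algebraMap] at ha
    exact hl (φ a) ha
  -- the normalised forms
  have hn : ∀ a j, ∃ t : k, t ≠ 0 ∧ ((fun c => t * G₀ a j c) = 0 ∨ ∃ c, t * G₀ a j c = 1) := by
    intro a j
    by_cases h0 : G₀ a j = 0
    · exact ⟨1, one_ne_zero, Or.inl (by rw [h0]; funext c; simp)⟩
    · obtain ⟨c, hc⟩ := Function.ne_iff.1 h0
      exact ⟨(G₀ a j c)⁻¹, inv_ne_zero hc, Or.inr ⟨c, inv_mul_cancel₀ hc⟩⟩
  choose t ht0 htn using hn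
  obtain ⟨G, hG⟩ : ∃ G : ℕ → Fin s → Sym (Fin (N + 1)) e → k, G = fun a j c => t (φ a) j * G₀ (φ a) j c := ⟨_, rfl⟩
  have hGc : ∀ a, Cur B (G a) := fun a => by
    rw [hG]
    exact cur_smul42 _ _ (fun j => ht0 _ j) (hG₀ _)
  have hGy : ∀ a j, aeval (y (φ a)) (fm (G a j)) = 0 := fun a j => by
    rw [hG, show fm (fun c => t (φ a) j * G₀ (φ a) j c) = _ from fm_smul42 _ _, map_mul, hGy₀, mul_zero]
  have hGs : ∀ j c, SlowS (fun a => ver v (y (φ a))) fun a => G a j c := by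
    intro j c
    refine slow_coef (fun a => ver v (y (φ a))) (fun a => G a j) (fun η hη => ?_) (fun a => ?_) c
    · have h1 : ∀ᶠ a in atTop, ∑ j, Height.logHeight (G₀ (φ a) j) ≤ η * hgt (ver v (y (φ a))) :=
        (hφ.tendsto_atTop).eventually (hGh₀ η hη)
      have h2 : (hyperfilter ℕ : Filter ℕ) ≤ atTop := by
        rw [← Nat.cofinite_eq_atTop]
        exact Filter.hyperfilter_le_cofinite
      filter_upwards [h2 h1] with a ha
      refine le_trans ?_ ha
      have h3 : Height.logHeight (G a j) = Height.logHeight (G₀ (φ a) j) := by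
        rw [hG]
        exact Height.logHeight_smul_eq_logHeight (G₀ (φ a) j) (ht0 _ j)
      rw [h3]
      exact Finset.single_le_sum (f := fun j => Height.logHeight (G₀ (φ a) j)) (fun j _ => Height.logHeight_nonneg _) (Finset.mem_univ j)
    · rw [hG]
      exact htn _ j
  have hgr := growth_m v (fun a => y (φ a)) G hGc hGy hGs hT hsur
  have hC : Crv (Submodule.span k' (Set.range ξ)) := crv_lin (B := B * d) ξ hξ1 hξg hξt fun m => (hgr m).trans (by
    have h1 : B * (d * m + 1) ≤ B * (d * (m + 1)) := Nat.mul_le_mul_left B (by rw [Nat.mul_succ]; omega)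
    rw [mul_assoc]
    exact h1)
  have : FiniteDimensional k' (Submodule.span k' (Set.range ξ)) := FiniteDimensional.span_of_finite k' (Set.finite_range ξ)
  have hLV : ∀ i, lv (fun j => γ fun a => l (φ a) i j) ξ ∈ Submodule.span k' (Set.range ξ) := by
    intro i
    unfold lv
    refine Submodule.sum_mem _ fun j _ => ?_
    rw [← Algebra.smul_def]
    exact Submodule.smul_mem _ _ (Submodule.subset_span (Set.mem_range_self j))
  obtain ⟨p, M, hp, hM, hrel⟩ := curve_alg hC hdat (fun i => lv (fun j => γ fun a => l (φ a) i j) ξ) hLV hlξ hI2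
  exact hgeo k' (fun i j => γ fun a => l (φ a) i j) hl2 E ξ hξ1 hC hon hlξ p M (by omega) hrel

/-- the curves -/
def CrvT (N : ℕ) (τ : ℕ × ℕ × ℕ) (k : Type u) [Field k] : Type u :=
  {G : Fin τ.1 → Sym (Fin (N + 1)) τ.2.1 → k // Cur τ.2.2 G}

/-- their heights -/
noncomputable def CrvH (N : ℕ) (τ : ℕ × ℕ × ℕ) (k : Type u) [Field k] [NumberField k] (G : CrvT N τ k) : ℝ :=
  ∑ j, Height.logHeight (G.1 j)

/-- the points of `X` on the curve -/
def PtT {k₀ : Type u} [Field k₀] {N N' d : ℕ} (I' : Ideal (MvPolynomial (Fin (N' + 1)) k₀)) (v : Fin (N' + 1) ≃ Sym (Fin (N + 1)) d)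
    (q : ℕ) (τ : ℕ × ℕ × ℕ) (k : Type u) [Field k] [NumberField k] [Algebra k₀ k] (G : CrvT N τ k) (_ : Fin q → Fin (N' + 1) → k)
    (x : Fin (N' + 1) → AlgebraicClosure k) : Prop :=
  OnX I' x ∧ ∃ y : Fin (N + 1) → AlgebraicClosure k, x = ver v y ∧ ∀ j, aeval y (fm (G.1 j)) = 0

theorem out_m {k₀ : Type u} [Field k₀] [NumberField k₀] {N n q r d : ℕ} (hd : 1 ≤ d) (hq : 2 * r < q)
    (hnum : n * (d + 1) + d * (2 * r) ≤ d * (q + 1)) {I : Ideal (MvPolynomial (Fin (N + 1)) k₀)} (hX : Vty n I) :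
    ∃ Φ : MvPolynomial (Fin q × Sym (Fin (N + 1)) d) k₀, Φ ≠ 0 ∧
      ∀ (k : Type u) [Field k] [NumberField k] [Algebra k₀ k] (S : Finset (Pl k)) (s e B : ℕ), ∃ δ C : ℝ, 0 < δ ∧
      ∀ g : Fin q → Sym (Fin (N + 1)) d → k, aeval (fun p : Fin q × Sym (Fin (N + 1)) d => g p.1 p.2) Φ ≠ 0 →
      ∀ G : Fin s → Sym (Fin (N + 1)) e → k, Cur B G →
      ∀ x : Fin (N + 1) → AlgebraicClosure k, (∃ j, x j = 1) → OnX I x → (∀ j, aeval x (fm (G j)) = 0) → dg x ≤ r →
        (∀ i, valS (g i) x ≠ 0) → ∑ ν ∈ S, ∑ i, (Real.log (⨆ s, nv ν (g i s)) + lamS (g i) ν x) ≤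
          (q * d - δ) * hgt x + C * (1 + ∑ i, Height.logHeight (g i) + ∑ j, Height.logHeight (G j)) := by
  obtain ⟨N', v, hver⟩ := ver_cv (k₀ := k₀) (N := N) hd
  obtain ⟨I', hV, hSpn, hon⟩ := hver k₀ I
  obtain ⟨Φ₀, h0, hseq⟩ := seq_m hd hq hnum v (hV n hX) hSpn
  obtain ⟨Φ, hΦ, hfin⟩ := ineq_of_m (k₀ := k₀) (N := N') (q := q) (r := r) (Θ := ℕ × ℕ × ℕ) (CrvT N) (CrvH N)
    (fun τ k _ _ t => Finset.sum_nonneg fun j _ => Height.logHeight_nonneg _) (PtT I' v q) (fun τ k _ _ _ t l x c _ h => h) Φ₀ h0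
    (fun τ k _ _ _ S t l x hl hP hh hb => by
      choose h1 y hy hG using hP
      obtain rfl : x = fun a => ver v (y a) := funext hy
      exact hseq k τ.1 τ.2.1 τ.2.2 S (fun a => (t a).1) l y hl h1 (fun a => (t a).2) hG hh hb)
  refine ⟨rename (fun p : Fin q × Fin (N' + 1) => (p.1, v p.2)) Φ, ?_, ?_⟩
  · intro h0
    apply hΦ
    apply rename_injective (fun p : Fin q × Fin (N' + 1) => (p.1, v p.2))
    · rintro ⟨a, b⟩ ⟨a', b'⟩ hab
      rw [Prod.mk.injEq] at hab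
      exact Prod.ext hab.1 (v.injective hab.2)
    · rw [h0, map_zero]
  · intro k _ _ _ S s e B
    obtain ⟨δ, C, hδ, hin⟩ := hfin (s, e, B) k S
    have hd0 : (0 : ℝ) < d := by exact_mod_cast hd
    refine ⟨δ * d, C, mul_pos hδ hd0, fun g hg G hG x h1 h2 h5' h3 h4 => ?_⟩
    rw [aeval_rename] at hg
    obtain ⟨a1, a2, a3, a4⟩ := ver_ar (k := k) hd v x h1
    have h5 := hin ⟨G, hG⟩ (fun i j => g i (v j)) hg (ver v x) a1 (a2.le.trans h3) (fun i hi => h4 i (((a4 (g i)).1).1 hi))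
      ⟨hon _ x h2, x, rfl, h5'⟩
    have h6 : ∑ ν ∈ S, ∑ i, lamN (fun j => g i (v j)) ν (ver v x) =
        ∑ ν ∈ S, ∑ i, (Real.log (⨆ s, nv ν (g i s)) + lamS (g i) ν x) := by
      refine Finset.sum_congr rfl fun ν _ => Finset.sum_congr rfl fun i _ => ?_
      unfold lamN
      rw [(a4 (g i)).2 ν, v.iSup_comp (g := fun s => nv ν (g i s))]
    have h7 : ∑ i, Height.logHeight (fun j => g i (v j)) = ∑ i, Height.logHeight (g i) :=
      Finset.sum_congr rfl fun i _ => Height.logHeight_comp_equiv v (g i)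
    have h8 : CrvH N (s, e, B) k ⟨G, hG⟩ = ∑ j, Height.logHeight (G j) := rfl
    rw [h6, h7, h8, a3] at h5
    refine h5.trans (le_of_eq ?_)
    ring

end Pool.Agent.CV
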