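import Pool.Agent.Helper42.CV.Sharp
import Pool.Agent.Helper42.CV.LineCur
import Pool.Agent.Helper6.CV.IneqM

/-!
# CV: sharpness on a line for any number of hyperplanes in general position
-/

set_option autoImplicit false

namespace Pool.Agent.CV

open NumberField Filter Module Matrix Pool.Agent.SQ
open Pool.Agent.Helper64.Vojta (Pl nv sn)
open Pool.Agent.Chart (fld dg crd val hgt lam)

universe u

/-- one more hyperplane -/
private theorem genPos_snoc42 {k : Type u} [Field k] [Infinite k] {n q : ℕ} (l : Fin q → Fin (n + 1) → k) (hl : GenPos l) :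
    ∃ m : Fin (n + 1) → k, GenPos (Fin.snoc (α := fun _ => Fin (n + 1) → k) l m) := by
  classical
  obtain ⟨p, hp⟩ : ∃ p : {I : Finset (Fin q) // I.card ≤ n} → Submodule k (Fin (n + 1) → k),
      ∀ I, p I = Submodule.span k (Set.range fun i : I.1 => l i) := ⟨_, fun _ => rfl⟩
  have hne : ⋃ I, (p I : Set (Fin (n + 1) → k)) ≠ Set.univ := by
    intro hu
    obtain ⟨I, hI⟩ := Subspace.exists_eq_top_of_iUnion_eq_univ hu
    have h1 : finrank k ↥(p I) ≤ n := by
      rw [hp]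
      refine (finrank_range_le_card (R := k) fun i : I.1 => l i).trans ?_
      rw [Fintype.card_coe]
      exact I.2
    rw [hI, finrank_top, Module.finrank_fintype_fun_eq_card, Fintype.card_fin] at h1
    omega
  obtain ⟨m, hm⟩ := (Set.ne_univ_iff_exists_notMem _).1 hne
  refine ⟨m, fun I hI => ?_⟩
  by_cases hlast : Fin.last q ∈ I
  · -- `I = I' ∪ {last}`
    obtain ⟨I', hI'⟩ : ∃ I' : Finset (Fin q), I = insert (Fin.last q) (I'.map Fin.castSuccEmb) := by
      refine ⟨Finset.univ.filter fun i => Fin.castSucc i ∈ I, ?_⟩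
      ext i
      refine Fin.lastCases ?_ (fun i => ?_) i
      · simp [hlast]
      · simp [Fin.castSucc_ne_last]
    have hnot : Fin.last q ∉ I'.map Fin.castSuccEmb := by
      simp [Fin.castSucc_ne_last]
    have hc : I'.card ≤ n := by
      rw [hI', Finset.card_insert_of_notMem hnot, Finset.card_map] at hI
      omega
    have h1 := hl I' (by omega)
    have h2 : m ∉ Submodule.span k (Set.range fun i : I' => l i) := fun h => hm (Set.mem_iUnion.2 ⟨⟨I', hc⟩, by
      rw [hp]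
      exact h⟩)
    have h3 : LinearIndependent k (fun o : Option I' => (o.casesOn' m fun i => l i : Fin (n + 1) → k)) :=
      linearIndependent_option'.2 ⟨h1, h2⟩
    -- reindex
    have h4 : ∀ i : I, ∃ o : Option I', Fin.snoc (α := fun _ => Fin (n + 1) → k) l m i.1 = (o.casesOn' m fun i => l i) ∧
        (∀ j : I', o = some j → i.1 = Fin.castSucc j.1) ∧ (o = none → i.1 = Fin.last q) := by
      rintro ⟨i, hi⟩
      rw [hI', Finset.mem_insert, Finset.mem_map] at hi
      rcases hi with rfl | ⟨j, hj, rfl⟩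
      · exact ⟨none, by simp, fun j hj => by simp at hj, fun _ => rfl⟩
      · exact ⟨some ⟨j, hj⟩, by simp, fun j' hj' => by simp at hj'; rw [← hj']; rfl, fun h => by simp at h⟩
    choose o ho1 ho2 ho3 using h4
    have hinj : Function.Injective o := by
      intro a b hab
      apply Subtype.ext
      rcases ha : o a with _ | j
      · rw [ho3 a ha, ho3 b (hab ▸ ha)]
      · rw [ho2 a j ha, ho2 b j (hab ▸ ha)]
    have h5 := h3.comp o hinj
    refine (linearIndependent_equiv (Equiv.refl _)).1 ?_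
    convert h5 using 1
    funext i
    exact ho1 i
  · have h4 : ∀ i : I, ∃ j : Fin q, i.1 = Fin.castSucc j := by
      rintro ⟨i, hi⟩
      have h5 : i ≠ Fin.last q := fun h => hlast (h ▸ hi)
      exact ⟨i.castPred h5, by simp⟩
    choose j hj using h4
    set I' : Finset (Fin q) := Finset.univ.filter fun i => Fin.castSucc i ∈ I with hI'
    have hc : I'.card ≤ n + 1 := by
      refine le_trans ?_ hI
      refine Finset.card_le_card_of_injOn (fun i => Fin.castSucc i) (fun i hi => ?_) (fun a _ b _ h => Fin.castSucc_injective _ h)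
      rw [hI', Finset.coe_filter] at hi
      exact hi.2
    have h1 := hl I' hc
    have hjI : ∀ i : I, j i ∈ I' := by
      intro i
      rw [hI', Finset.mem_filter]
      refine ⟨Finset.mem_univ _, ?_⟩
      rw [← hj]
      exact i.2
    have hinj : Function.Injective fun i : I => (⟨j i, hjI i⟩ : I') := by
      intro a b hab
      apply Subtype.ext
      have h2 : j a = j b := congrArg Subtype.val hab
      rw [hj a, hj b, h2]
    have h5 := h1.comp _ hinj
    convert h5 using 1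
    funext i
    show Fin.snoc (α := fun _ => Fin (n + 1) → k) l m i.1 = l (j i)
    rw [hj i, Fin.snoc_castSucc]

/-- more hyperplanes -/
private theorem genPos_ext42 {k : Type u} [Field k] [Infinite k] {n q : ℕ} (l : Fin q → Fin (n + 1) → k) (hl : GenPos l) (p : ℕ) :
    ∃ l' : Fin (q + p) → Fin (n + 1) → k, GenPos l' ∧ ∀ i : Fin q, l' (Fin.castAdd p i) = l i := by
  induction p with
  | zero => exact ⟨l, hl, fun i => rfl⟩
  | succ p ih =>
    obtain ⟨l', h1, h2⟩ := ih
    obtain ⟨m, hm⟩ := genPos_snoc42 l' h1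
    refine ⟨Fin.snoc (α := fun _ => Fin (n + 1) → k) l' m, hm, fun i => ?_⟩
    rw [← h2 i]
    exact Fin.snoc_castSucc (α := fun _ => Fin (n + 1) → k) m l' (Fin.castAdd p i)

variable {k : Type u} [Field k] [NumberField k]

/-- any number of hyperplanes -/
theorem sharp_all {n q r : ℕ} (hn : 1 ≤ n) (hr : 1 ≤ r) (S : Finset (Pl k)) (hS2 : ∀ ν, ν ∉ S → nv ν (2 : k) = 1)
    (l : Fin q → Fin (n + 1) → k) (hl : GenPos l) :
    ∃ (G : Fin (n - 1) → Sym (Fin (n + 1)) 1 → k) (C : ℝ), Cur 1 G ∧ ∀ B : ℝ, ∃ x : Fin (n + 1) → AlgebraicClosure k, (∃ j, x j = 1) ∧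
      dg x ≤ r ∧ (∀ i, val (l i) x ≠ 0) ∧ (∀ j, val (fun i => G j (Sym.oneEquiv i)) x = 0) ∧ B ≤ hgt x ∧
      min (q : ℝ) (2 * n + 2 * r - 2) * hgt x - C ≤ ∑ ν ∈ S, ∑ i, lam (l i) ν x := by
  classical
  have hinf : Infinite k := CharZero.infinite k
  -- the statement for `q ≥ 2 n + 2 r - 2`
  have key : ∀ (q' : ℕ) (l' : Fin q' → Fin (n + 1) → k), GenPos l' → 2 * n + 2 * r - 2 ≤ q' →
      ∃ (G : Fin (n - 1) → Sym (Fin (n + 1)) 1 → k) (C : ℝ), Cur 1 G ∧ ∀ B : ℝ, ∃ x : Fin (n + 1) → AlgebraicClosure k,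
        (∃ j, x j = 1) ∧ dg x ≤ r ∧ (∀ i, val (l' i) x ≠ 0) ∧ (∀ j, val (fun i => G j (Sym.oneEquiv i)) x = 0) ∧ B ≤ hgt x ∧
        (2 * n + 2 * r - 2) * hgt x - C ≤ ∑ ν ∈ S, ∑ i, lam (l' i) ν x := by
    intro q' l' hl' hq'
    obtain ⟨P₁, P₂, l₁, l₂, h12, C, hC⟩ := sharp_line hn hr hq' S hS2 l' hl'
    obtain ⟨G, hG, hG0⟩ := cur_line P₁ P₂ l₁ l₂ h12
    refine ⟨G, C, hG, fun B => ?_⟩
    obtain ⟨x, h1, h2, h3, h4, h5, h6⟩ := hC B
    exact ⟨x, h1, h2, h3, fun j => h4 _ (hG0 j).1 (hG0 j).2, h5, h6⟩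
  have hr1 : (1 : ℝ) ≤ r := by exact_mod_cast hr
  have hQ : ((2 * n + 2 * r - 2 : ℕ) : ℝ) = 2 * n + 2 * r - 2 := by
    rw [Nat.cast_sub (by omega)]
    push_cast
    ring
  rcases Nat.lt_or_ge q (2 * n + 2 * r - 2) with hq | hq
  · obtain ⟨p, hp⟩ := Nat.exists_eq_add_of_le hq.le
    obtain ⟨l', hl', hll'⟩ := genPos_ext42 l hl p
    obtain ⟨G, C, hG, hC⟩ := key (q + p) l' hl' hp.le
    have hmin : min (q : ℝ) (2 * n + 2 * r - 2) = q := by
      rw [← hQ]
      exact min_eq_left (by exact_mod_cast hq.le)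
    refine ⟨G, C + ∑ j : Fin p, (Height.logHeight (l' (Fin.natAdd q j)) + finrank ℚ k * Real.log ((n + 1 + 1 : ℝ) ^ 2) +
      |∑ ν ∈ S, Real.log (⨆ i, nv ν (l' (Fin.natAdd q j) i))|), hG, fun B => ?_⟩
    obtain ⟨x, h1, h2, h3, h4, h5, h6⟩ := hC B
    refine ⟨x, h1, h2, fun i => by rw [← hll' i]; exact h3 _, h4, h5, ?_⟩
    have h7 : ∑ ν ∈ S, ∑ i, lam (l' i) ν x = ∑ ν ∈ S, ∑ i, lam (l i) ν x + ∑ j : Fin p, ∑ ν ∈ S, lam (l' (Fin.natAdd q j)) ν x := by
      rw [Finset.sum_comm (s := Finset.univ) (t := S), ← Finset.sum_add_distrib]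
      refine Finset.sum_congr rfl fun ν _ => ?_
      rw [Fin.sum_univ_add]
      congr 1
      exact Finset.sum_congr rfl fun i _ => by rw [hll' i]
    have h8 : ∀ j : Fin p, ∑ ν ∈ S, lam (l' (Fin.natAdd q j)) ν x ≤ hgt x + (Height.logHeight (l' (Fin.natAdd q j)) +
        finrank ℚ k * Real.log ((n + 1 + 1 : ℝ) ^ 2) + |∑ ν ∈ S, Real.log (⨆ i, nv ν (l' (Fin.natAdd q j) i))|) := by
      intro j
      have h9 := lamN_sum_le S (l' (Fin.natAdd q j)) x h1 (h3 _)
      have h10 : ∑ ν ∈ S, Pool.Agent.TRI.lamN (l' (Fin.natAdd q j)) ν x =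
          ∑ ν ∈ S, Real.log (⨆ i, nv ν (l' (Fin.natAdd q j) i)) + ∑ ν ∈ S, lam (l' (Fin.natAdd q j)) ν x := by
        rw [← Finset.sum_add_distrib]
        rfl
      rw [h10] at h9
      have h11 := neg_abs_le (∑ ν ∈ S, Real.log (⨆ i, nv ν (l' (Fin.natAdd q j) i)))
      linarith
    have h9 := Finset.sum_le_sum fun j (_ : j ∈ Finset.univ) => h8 j
    rw [Finset.sum_add_distrib, Finset.sum_const, Finset.card_univ, Fintype.card_fin, nsmul_eq_mul] at h9
    rw [h7] at h6
    have h10 : (2 * n + 2 * r - 2 : ℝ) = q + p := by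
      rw [← hQ, hp]
      push_cast
      rfl
    rw [h10] at h6
    rw [hmin]
    linarith
  · obtain ⟨G, C, hG, hC⟩ := key q l hl hq
    refine ⟨G, C, hG, fun B => ?_⟩
    obtain ⟨x, h1, h2, h3, h4, h5, h6⟩ := hC B
    have hmin : min (q : ℝ) (2 * n + 2 * r - 2) = 2 * n + 2 * r - 2 := by
      rw [← hQ]
      exact min_eq_right (by exact_mod_cast hq)
    refine ⟨x, h1, h2, h3, h4, h5, ?_⟩
    rw [hmin]
    exact h6

end Pool.Agent.CV
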